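import Mathlib
import Pool.Agent.H2R2.Cov2
import Pool.Agent.W677.Summand3

set_option autoImplicit false

/-!
Lower-dimensional convex subsets of a convex body: nets, and directions which move a large share of
a finite subset into the interior of the body.
-/

namespace Q172.Hadw

open Module
open scoped Pointwise
open Pool.Agent.W677.Summand (Eu Lset phi)
open Pool.Agent.H2R2.Cov

/-- a heavy translate, indexed form -/
theorem heavy_idx {E : Type*} [NormedAddCommGroup E] [NormedSpace ℝ E] [FiniteDimensional ℝ E]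
    (K : Set E) (hK : Convex ℝ K) (hKc : IsCompact K) (hKi : (interior K).Nonempty)
    {α : Type*} (A : Finset α) (f : α → E) (hf : ∀ a ∈ A, f a ∈ K) (l : ℝ) (hl : 0 < l) :
    ∃ t : E, (l / (1 + l)) ^ finrank ℝ E * A.card ≤
      (open Classical in ((A.filter (fun a => f a - t ∈ l • K)).card : ℝ)) := by
  classical
  obtain ⟨t, ht⟩ := exists_heavy K hK hKc hKi (A.image f) (by
      intro x hx
      obtain ⟨a, ha, rfl⟩ := Finset.mem_image.1 hx
      exact hf a ha) (fun x => ((A.filter (fun a => f a = x)).card : ℝ))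
      (fun _ _ => by positivity) l hl
  refine ⟨t, ?_⟩
  have h1 : ∑ x ∈ A.image f, ((A.filter (fun a => f a = x)).card : ℝ) = A.card := by
    rw [← Nat.cast_sum]
    congr 1
    exact (Finset.card_eq_sum_card_image f A).symm
  have h2 : wt (A.image f) (fun x => ((A.filter (fun a => f a = x)).card : ℝ)) (l • K) t
      = ((A.filter (fun a => f a - t ∈ l • K)).card : ℝ) := by
    unfold wt
    have h3 : (A.filter (fun a => f a - t ∈ l • K)).card = ∑ x ∈ A.image f,
        ((A.filter (fun a => f a - t ∈ l • K)).filter (fun a => f a = x)).card := by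
      refine Finset.card_eq_sum_card_fiberwise ?_
      intro a ha
      exact Finset.mem_image_of_mem _ (Finset.mem_filter.1 ha).1
    rw [h3, Nat.cast_sum]
    refine Finset.sum_congr rfl fun x _ => ?_
    rw [Finset.filter_filter]
    by_cases hx : x - t ∈ l • K
    · rw [if_pos hx]
      have h4 : (A.filter (fun a => f a = x)) =
          (A.filter (fun a => f a - t ∈ l • K ∧ f a = x)) := by
        apply Finset.filter_congr
        intro a _
        constructor
        · intro h; exact ⟨by rw [h]; exact hx, h⟩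
        · intro h; exact h.2
      exact congrArg (fun s : Finset α => ((s.card : ℕ) : ℝ)) h4
    · rw [if_neg hx]
      have h4 : (A.filter (fun a => f a - t ∈ l • K ∧ f a = x)) = ∅ := by
        apply Finset.filter_eq_empty_iff.2
        rintro a _ ⟨h5, h6⟩
        exact hx (h6 ▸ h5)
      rw [h4]; simp
  rw [h1, h2] at ht
  exact ht

variable {d : ℕ}

/-- coordinates of a compact convex set in its affine hull -/
theorem flat_coords (B : Set (Eu d)) (hB : Convex ℝ B) (hBc : IsCompact B) (a₀ : Eu d)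
    (ha₀ : a₀ ∈ B) :
    ∃ (k : ℕ) (ι : Eu k →ₗᵢ[ℝ] Eu d) (X : Set (Eu k)), k = finrank ℝ (vectorSpan ℝ B) ∧
      Convex ℝ X ∧ IsCompact X ∧ (interior X).Nonempty ∧
      (∀ u, u ∈ X ↔ a₀ + ι u ∈ B) ∧ (∀ x ∈ B, ∃ u ∈ X, x = a₀ + ι u) := by
  obtain ⟨ι, hι⟩ := Pool.Agent.W677.Summand.coords (vectorSpan ℝ B) rfl
  refine ⟨_, ι, Lset ι B a₀, rfl, Pool.Agent.W677.Summand.Lset_convex hB,
    Pool.Agent.W677.Summand.Lset_compact (fun x hx => (hι x).1 hx) ha₀ hBc,
    Pool.Agent.W677.Summand.Lset_int hι ha₀ hB, fun u => Iff.rfl, ?_⟩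
  intro x hx
  obtain ⟨u, hu⟩ := (hι (x - a₀)).1 (vsub_mem_vectorSpan ℝ hx ha₀)
  refine ⟨u, ?_, ?_⟩
  · show a₀ + ι u ∈ B
    rw [hu, add_sub_cancel]; exact hx
  · rw [hu, add_sub_cancel]

/-- a net of a lower-dimensional set -/
theorem flat_net (B : Set (Eu d)) (hB : Convex ℝ B) (hBc : IsCompact B) (hne : B.Nonempty)
    (m : ℕ) (hm : finrank ℝ (vectorSpan ℝ B) ≤ m) (η : ℝ) (hη : 0 < η) :
    ∃ S : Finset (Eu d), (∀ x ∈ S, x ∈ B) ∧
      (∀ y ∈ B, ∃ x ∈ S, ∃ k ∈ B, ∃ k' ∈ B, y = x + η • (k - k')) ∧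
      (S.card : ℝ) ≤ (1 + 1 / η) ^ m := by
  classical
  obtain ⟨a₀, ha₀⟩ := hne
  obtain ⟨k, ι, X, hk, hX, hXc, hXi, hXB, hBX⟩ := flat_coords B hB hBc a₀ ha₀
  obtain ⟨S, hS, hnet, hcard⟩ := exists_net X hX hXc hXi η hη
  refine ⟨S.image (fun u => a₀ + ι u), ?_, ?_, ?_⟩
  · intro x hx
    obtain ⟨u, hu, rfl⟩ := Finset.mem_image.1 hx
    exact (hXB u).1 (hS u hu)
  · intro y hy
    obtain ⟨u, hu, rfl⟩ := hBX y hy
    obtain ⟨x, hx, κ, hκ, κ', hκ', hu'⟩ := hnet u hu
    refine ⟨a₀ + ι x, Finset.mem_image_of_mem _ hx, a₀ + ι κ, (hXB κ).1 hκ, a₀ + ι κ',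
      (hXB κ').1 hκ', ?_⟩
    rw [hu', map_add, map_smul, map_sub]
    module
  · have h1 : ((S.image (fun u => a₀ + ι u)).card : ℝ) ≤ S.card := by
      exact_mod_cast Finset.card_image_le
    refine h1.trans (hcard.trans ?_)
    have h2 : (1 : ℝ) ≤ 1 + 1 / η := by
      have : 0 < 1 / η := by positivity
      linarith
    refine pow_le_pow_right₀ h2 ?_
    rw [finrank_euclideanSpace, Fintype.card_fin, hk]
    exact hm

/-- **A direction for a large share of a finite set in a lower-dimensional convex subset.** -/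
theorem flat_heavy (K B : Set (Eu d)) (hK : Convex ℝ K) (hKi : (interior K).Nonempty)
    (hB : Convex ℝ B) (hBc : IsCompact B) (hBK : B ⊆ K) (hne : B.Nonempty)
    (m : ℕ) (hm : finrank ℝ (vectorSpan ℝ B) ≤ m) (l η : ℝ) (hl : 0 < l) (hη : 0 < η)
    (hρ : l + η + η * m < 1) {α : Type*} (A : Finset α) (f : α → Eu d) (hf : ∀ a ∈ A, f a ∈ B) :
    ∃ w : Eu d, (l / (1 + l)) ^ m * A.card ≤ (open Classical in ((A.filter (fun a =>
      ∀ κ ∈ B, ∀ κ' ∈ B, f a + η • (κ - κ') + w ∈ interior K)).card : ℝ)) := by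
  classical
  obtain ⟨a₀, ha₀⟩ := hne
  obtain ⟨k, ι, X, hk, hX, hXc, hXi, hXB, hBX⟩ := flat_coords B hB hBc a₀ ha₀
  have hkm : k ≤ m := hk ▸ hm
  -- coordinates of the points
  have hu : ∀ a, ∃ u : Eu k, a ∈ A → (u ∈ X ∧ f a = a₀ + ι u) := by
    intro a
    by_cases ha : a ∈ A
    · obtain ⟨u, hu1, hu2⟩ := hBX (f a) (hf a ha)
      exact ⟨u, fun _ => ⟨hu1, hu2⟩⟩
    · exact ⟨0, fun h => absurd h ha⟩
  choose u hu using hu
  obtain ⟨t, ht⟩ := heavy_idx X hX hXc hXi A u (fun a ha => (hu a ha).1) l hl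
  rw [finrank_euclideanSpace, Fintype.card_fin] at ht
  -- the reflection point
  have hrefl : ∃ c : Eu k, ∀ x ∈ X, ∃ y ∈ X, -x = (k : ℝ) • y - ((k : ℝ) + 1) • c := by
    rcases Nat.eq_zero_or_pos k with h0 | h0
    · subst h0
      exact ⟨0, fun x hx => ⟨x, hx, Subsingleton.elim _ _⟩⟩
    · obtain ⟨c, hc⟩ := exists_reflect X hX hXc hXi (by
        rw [finrank_euclideanSpace, Fintype.card_fin]; exact h0)
      rw [finrank_euclideanSpace, Fintype.card_fin] at hc
      exact ⟨c, hc⟩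
  obtain ⟨c, hc⟩ := hrefl
  obtain ⟨z₀, hz₀⟩ := hKi
  set ρ : ℝ := l + η + η * k with hρdef
  have hρ0 : 0 < ρ := by positivity
  have hρ1 : ρ < 1 := by
    have : η * (k : ℝ) ≤ η * m := by
      have : (k : ℝ) ≤ m := by exact_mod_cast hkm
      exact mul_le_mul_of_nonneg_left this hη.le
    linarith
  refine ⟨-(ι (t - (η * (k + 1)) • c)) - (1 - ρ) • a₀ + (1 - ρ) • z₀, ?_⟩
  have hll : 0 < l / (1 + l) := by positivity
  have hll1 : l / (1 + l) ≤ 1 := by rw [div_le_one (by positivity)]; linarith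
  have hstep1 : (l / (1 + l)) ^ m * (A.card : ℝ) ≤ (l / (1 + l)) ^ k * A.card :=
    mul_le_mul_of_nonneg_right (pow_le_pow_of_le_one hll.le hll1 hkm) (by positivity)
  refine (hstep1.trans ht).trans ?_
  have hsub : A.filter (fun a => u a - t ∈ l • X) ⊆ A.filter (fun a =>
      ∀ κ ∈ B, ∀ κ' ∈ B, f a + η • (κ - κ') +
        (-(ι (t - (η * (k + 1)) • c)) - (1 - ρ) • a₀ + (1 - ρ) • z₀) ∈ interior K) := by
    intro a ha
    obtain ⟨haA, hmem⟩ := Finset.mem_filter.1 ha
    refine Finset.mem_filter.2 ⟨haA, ?_⟩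
    intro κ hκ κ' hκ'
    obtain ⟨k₁, hk₁, hk₁'⟩ := hmem
    simp only at hk₁'
    obtain ⟨v, hv, rfl⟩ := hBX κ hκ
    obtain ⟨v', hv', rfl⟩ := hBX κ' hκ'
    obtain ⟨k₂, hk₂, hk₂'⟩ := hc v' hv'
    have hcomb : (l / ρ) • k₁ + (η / ρ) • v + (η * k / ρ) • k₂ ∈ X := by
      have h1 := hX.sum_mem (t := (Finset.univ : Finset (Fin 3)))
        (w := ![l / ρ, η / ρ, η * k / ρ]) (z := ![k₁, v, k₂])
        (by intro i _; fin_cases i <;> simp <;> positivity)
        (by
          simp [Fin.sum_univ_three]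
          field_simp
          rw [hρdef])
        (by intro i _; fin_cases i <;> simp [hk₁, hv, hk₂])
      simpa [Fin.sum_univ_three] using h1
    set k₃ := (l / ρ) • k₁ + (η / ρ) • v + (η * k / ρ) • k₂ with hk₃
    have hρk₃ : ρ • k₃ = l • k₁ + η • v + (η * k) • k₂ := by
      rw [hk₃]
      simp only [smul_add, smul_smul]
      rw [mul_div_cancel₀ _ hρ0.ne', mul_div_cancel₀ _ hρ0.ne', mul_div_cancel₀ _ hρ0.ne']
    have hk₃K : a₀ + ι k₃ ∈ K := hBK ((hXB k₃).1 hcomb)
    have hint : (1 - ρ) • z₀ + ρ • (a₀ + ι k₃) ∈ interior K := by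
      refine hK.combo_interior_self_subset_interior (a := 1 - ρ) (b := ρ) (by linarith) hρ0.le
        (by ring) ?_
      exact Set.add_mem_add (Set.smul_mem_smul_set hz₀) (Set.smul_mem_smul_set hk₃K)
    have hx : u a = t + l • k₁ := by rw [hk₁']; abel
    have hk'' : -(η • v') = (η * k) • k₂ - (η * (k + 1)) • c := by
      rw [← smul_neg, hk₂', smul_sub, smul_smul, smul_smul]
    have hkey : u a + η • (v - v') = t - (η * (k + 1)) • c + ρ • k₃ := by
      rw [hx, hρk₃, smul_sub, sub_eq_add_neg (η • v), hk'']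
      abel
    have hfin : f a + η • (a₀ + ι v - (a₀ + ι v')) +
        (-(ι (t - (η * (k + 1)) • c)) - (1 - ρ) • a₀ + (1 - ρ) • z₀)
        = (1 - ρ) • z₀ + ρ • (a₀ + ι k₃) := by
      rw [(hu a haA).2]
      have e1 : a₀ + ι (u a) + η • (a₀ + ι v - (a₀ + ι v')) = a₀ + ι (u a + η • (v - v')) := by
        rw [map_add, map_smul, map_sub]
        module
      rw [e1, hkey, map_add, map_smul]
      module
    rw [hfin]
    exact hint
  exact_mod_cast Finset.card_le_card hsub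

end Q172.Hadw
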