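import Mathlib
import Pool.Agent.Q172.Hadw.Flat
import Pool.Agent.TH84.HC.Cover

set_option autoImplicit false

/-!
Convex bodies whose extreme points lie on many of few hyperplanes: the general bound.
-/

namespace Q172.Hadw

open Module
open scoped Pointwise
open Pool.Agent.W677.Summand (Eu)

/-- double counting: some `s`-subset is contained in a large share of the `r`-subsets -/
theorem exists_common {α : Type*} {n : ℕ} (A : Finset α) (I : α → Finset (Fin n)) (r s : ℕ)
    (hr : ∀ a ∈ A, (I a).card = r) (hsn : s ≤ n) :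
    ∃ J : Finset (Fin n), J.card = s ∧ A.card * r.choose s ≤
      (open Classical in (A.filter (fun a => J ⊆ I a)).card) * n.choose s := by
  classical
  set P := (Finset.univ : Finset (Fin n)).powersetCard s with hP
  have hPc : P.card = n.choose s := by
    rw [hP, Finset.card_powersetCard, Finset.card_univ, Fintype.card_fin]
  have hPne : P.Nonempty := by
    rw [← Finset.card_pos, hPc]
    exact Nat.choose_pos hsn
  have hsum : ∑ _J ∈ P, A.card * r.choose s ≤
      ∑ J ∈ P, (A.filter (fun a => J ⊆ I a)).card * n.choose s := by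
    rw [Finset.sum_const, smul_eq_mul, hPc, ← Finset.sum_mul, mul_comm (n.choose s)]
    refine Nat.mul_le_mul_right _ (le_of_eq ?_)
    simp_rw [Finset.card_filter]
    rw [Finset.sum_comm]
    have h1 : ∀ a ∈ A, ∑ J ∈ P, (if J ⊆ I a then 1 else 0) = r.choose s := by
      intro a ha
      rw [← Finset.card_filter]
      have h2 : P.filter (fun J => J ⊆ I a) = (I a).powersetCard s := by
        ext J
        simp only [hP, Finset.mem_filter, Finset.mem_powersetCard, Finset.subset_univ, true_and]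
        tauto
      rw [h2, Finset.card_powersetCard, hr a ha]
    rw [Finset.sum_congr rfl h1, Finset.sum_const, smul_eq_mul]
  obtain ⟨J, hJ, h⟩ := Finset.exists_le_of_sum_le hPne hsum
  exact ⟨J, (Finset.mem_powersetCard.1 hJ).2, h⟩

variable {d : ℕ}

/-- dimension of a set in an intersection of independent hyperplanes -/
theorem finrank_flat {n : ℕ} (B : Set (Eu d)) (g : Fin n → (Eu d →ₗ[ℝ] ℝ)) (c : Fin n → ℝ)
    (J : Finset (Fin n)) (hJ : LinearIndependent ℝ (fun i : J => g i))
    (hB : ∀ x ∈ B, ∀ i ∈ J, g i x = c i) :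
    finrank ℝ (vectorSpan ℝ B) ≤ d - J.card := by
  set W : Submodule ℝ (Module.Dual ℝ (Eu d)) :=
    Submodule.span ℝ (Set.range (fun i : J => (g i : Module.Dual ℝ (Eu d)))) with hW
  have h1 : finrank ℝ W = J.card := by
    rw [hW, finrank_span_eq_card hJ, Fintype.card_coe]
  have h2 := Subspace.finrank_add_finrank_dualCoannihilator_eq W
  rw [h1] at h2
  have h3 : finrank ℝ (Eu d) = d := by simp
  rw [h3] at h2
  have h4 : vectorSpan ℝ B ≤ W.dualCoannihilator := by
    rw [vectorSpan_def, Submodule.span_le]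
    rintro _ ⟨x, hx, y, hy, rfl⟩
    rw [SetLike.mem_coe, Submodule.mem_dualCoannihilator]
    intro φ hφ
    rw [hW] at hφ
    induction hφ using Submodule.span_induction with
    | mem φ hφ =>
      obtain ⟨i, rfl⟩ := hφ
      show g i (x -ᵥ y) = 0
      rw [vsub_eq_sub, map_sub, hB x hx i i.2, hB y hy i i.2, sub_self]
    | zero => rfl
    | add φ ψ _ _ h5 h6 => rw [LinearMap.add_apply, h5, h6, add_zero]
    | smul a φ _ h5 => rw [LinearMap.smul_apply, h5, smul_zero]
  have h5 := Submodule.finrank_mono h4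
  omega

/-- the section of `K` by the flat given by the hyperplanes `I` -/
def sect {n : ℕ} (K : Set (Eu d)) (g : Fin n → (Eu d →ₗ[ℝ] ℝ)) (c : Fin n → ℝ)
    (I : Finset (Fin n)) : Set (Eu d) := {x | x ∈ K ∧ ∀ i ∈ I, g i x = c i}

theorem sect_convex {n : ℕ} {K : Set (Eu d)} (hK : Convex ℝ K) (g : Fin n → (Eu d →ₗ[ℝ] ℝ))
    (c : Fin n → ℝ) (I : Finset (Fin n)) : Convex ℝ (sect K g c I) := by
  rintro x ⟨hx, hx'⟩ y ⟨hy, hy'⟩ a b ha hb hab
  refine ⟨hK hx hy ha hb hab, fun i hi => ?_⟩
  rw [map_add, map_smul, map_smul, hx' i hi, hy' i hi, smul_eq_mul, smul_eq_mul, ← add_mul, hab,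
    one_mul]

theorem sect_compact {n : ℕ} {K : Set (Eu d)} (hK : IsCompact K) (g : Fin n → (Eu d →ₗ[ℝ] ℝ))
    (c : Fin n → ℝ) (I : Finset (Fin n)) : IsCompact (sect K g c I) := by
  have h1 : sect K g c I = K ∩ ⋂ i ∈ I, {x | g i x = c i} := by
    ext x
    simp [sect]
  rw [h1]
  refine hK.inter_right (isClosed_biInter fun i _ => ?_)
  exact isClosed_eq (LinearMap.continuous_of_finiteDimensional (g i)) continuous_const

/-- **The general bound.** -/
theorem main_bound (n r s : ℕ) (hsr : s ≤ r) (K : Set (Eu d)) (hK : Convex ℝ K)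
    (hKc : IsCompact K) (hKi : (interior K).Nonempty) (g : Fin n → (Eu d →ₗ[ℝ] ℝ))
    (c : Fin n → ℝ)
    (hext : ∀ x ∈ Set.extremePoints ℝ K, ∃ I : Finset (Fin n), I.card = r ∧
      LinearIndependent ℝ (fun i : I => g i) ∧ ∀ i ∈ I, g i x = c i)
    (l η : ℝ) (hl : 0 < l) (hη : 0 < η) (hρ : l + η + η * (d - s : ℕ) < 1) :
    Pool.Agent.TH84.HC.CoveredBy (1 + (n.choose s : ℝ) / r.choose s * (1 + 1 / l) ^ (d - s) *
      (Real.log (n.choose r) + (d - r : ℕ) * Real.log (1 + 1 / η))) K := by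
  classical
  -- an extreme point
  obtain ⟨x₀, hx₀⟩ := hKc.extremePoints_nonempty (hKi.mono interior_subset)
  have hrn : r ≤ n := by
    obtain ⟨I, hI, -⟩ := hext x₀ hx₀
    rw [← hI]
    exact (Finset.card_le_univ I).trans (by simp)
  have hsn : s ≤ n := hsr.trans hrn
  set B : Finset (Fin n) → Set (Eu d) := sect K g c with hB
  -- the types
  set F : Finset (Finset (Fin n)) := ((Finset.univ : Finset (Fin n)).powersetCard r).filter
    (fun I => LinearIndependent ℝ (fun i : I => g i) ∧ (B I).Nonempty) with hF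
  have hFr : ∀ I ∈ F, I.card = r := fun I hI =>
    (Finset.mem_powersetCard.1 (Finset.mem_filter.1 hI).1).2
  have hFi : ∀ I ∈ F, LinearIndependent ℝ (fun i : I => g i) := fun I hI =>
    (Finset.mem_filter.1 hI).2.1
  have hFn : ∀ I ∈ F, (B I).Nonempty := fun I hI => (Finset.mem_filter.1 hI).2.2
  have hFc : F.card ≤ n.choose r := by
    refine (Finset.card_filter_le _ _).trans ?_
    rw [Finset.card_powersetCard, Finset.card_univ, Fintype.card_fin]
  -- the nets
  have hnet : ∀ I : F, ∃ S : Finset (Eu d), (∀ x ∈ S, x ∈ B I) ∧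
      (∀ y ∈ B I, ∃ x ∈ S, ∃ k ∈ B I, ∃ k' ∈ B I, y = x + η • (k - k')) ∧
      (S.card : ℝ) ≤ (1 + 1 / η) ^ (d - r) := by
    rintro ⟨I, hI⟩
    refine flat_net (B I) (sect_convex hK g c I) (sect_compact hKc g c I) (hFn I hI) (d - r) ?_ η hη
    have h1 := finrank_flat (B I) g c I (hFi I hI) (fun x hx => hx.2)
    rwa [hFr I hI] at h1
  choose S hS1 hS2 hS3 using hnet
  have hη1 : (1 : ℝ) ≤ 1 + 1 / η := by
    have : 0 < 1 / η := by positivity
    linarith
  have hCnr : (1 : ℝ) ≤ n.choose r := by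
    exact_mod_cast Nat.choose_pos hrn
  have hCrs : (0 : ℝ) < r.choose s := by exact_mod_cast Nat.choose_pos hsr
  have hCns : (0 : ℝ) < n.choose s := by exact_mod_cast Nat.choose_pos hsn
  have hCle : (r.choose s : ℝ) ≤ n.choose s := by
    exact_mod_cast Nat.choose_le_choose s hrn
  have hll : 0 < l / (1 + l) := by positivity
  have hll1 : l / (1 + l) ≤ 1 := by rw [div_le_one (by positivity)]; linarith
  have hcov := Pool.Agent.H815R2.Had.greedy_cover (S := Σ I : F, S I) (E := Eu d)
    (fun w p => ∀ κ ∈ B p.1, ∀ κ' ∈ B p.1, (p.2 : Eu d) + η • (κ - κ') + w ∈ interior K)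
    ((r.choose s : ℝ) / n.choose s * (l / (1 + l)) ^ (d - s)) (by positivity)
    (by
      calc (r.choose s : ℝ) / n.choose s * (l / (1 + l)) ^ (d - s) ≤ 1 * 1 := by
            refine mul_le_mul ?_ (pow_le_one₀ hll.le hll1) (by positivity) zero_le_one
            rw [div_le_one hCns]; exact hCle
        _ = 1 := one_mul 1)
    (by
      intro A hA
      obtain ⟨J, hJs, hJ⟩ := exists_common A (fun p => (p.1 : Finset (Fin n))) r s
        (fun p _ => hFr _ p.1.2) hsn
      set A' := A.filter (fun p => J ⊆ (p.1 : Finset (Fin n))) with hA'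
      have hA'card : (r.choose s : ℝ) / n.choose s * A.card ≤ A'.card := by
        rw [div_mul_eq_mul_div, div_le_iff₀ hCns]
        have : (A.card * r.choose s : ℝ) ≤ A'.card * n.choose s := by exact_mod_cast hJ
        linarith
      have hA'ne : A'.Nonempty := by
        rw [← Finset.card_pos]
        have h1 : (0 : ℝ) < A.card := by exact_mod_cast Finset.card_pos.2 hA
        have h2 : (0 : ℝ) < A'.card := lt_of_lt_of_le (by positivity) hA'card
        exact_mod_cast h2
      obtain ⟨p₀, hp₀⟩ := hA'ne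
      have hJI : J ⊆ (p₀.1 : Finset (Fin n)) := (Finset.mem_filter.1 hp₀).2
      have hJi : LinearIndependent ℝ (fun i : J => g i) := by
        have h1 := hFi _ p₀.1.2
        exact h1.comp (fun i : J => (⟨i, hJI i.2⟩ : (p₀.1 : Finset (Fin n)))) (by
          intro i j hij
          have := congrArg Subtype.val hij
          exact Subtype.ext this)
      have hBmono : ∀ I : Finset (Fin n), J ⊆ I → B I ⊆ B J := fun I hI x hx =>
        ⟨hx.1, fun i hi => hx.2 i (hI hi)⟩
      have hJne : (B J).Nonempty := (hFn _ p₀.1.2).mono (hBmono _ hJI)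
      have hdim := finrank_flat (B J) g c J hJi (fun x hx => hx.2)
      rw [hJs] at hdim
      obtain ⟨w, hw⟩ := flat_heavy K (B J) hK hKi (sect_convex hK g c J) (sect_compact hKc g c J)
        (fun x hx => hx.1) hJne (d - s) hdim l η hl hη hρ A' (fun p => (p.2 : Eu d)) (by
          intro p hp
          exact hBmono _ (Finset.mem_filter.1 hp).2 (hS1 p.1 _ p.2.2))
      refine ⟨w, ?_⟩
      have h3 : (r.choose s : ℝ) / n.choose s * (l / (1 + l)) ^ (d - s) * A.card ≤
          (l / (1 + l)) ^ (d - s) * A'.card := by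
        calc (r.choose s : ℝ) / n.choose s * (l / (1 + l)) ^ (d - s) * A.card
            = (l / (1 + l)) ^ (d - s) * ((r.choose s : ℝ) / n.choose s * A.card) := by ring
          _ ≤ _ := mul_le_mul_of_nonneg_left hA'card (by positivity)
      refine h3.trans (hw.trans ?_)
      have hsub : A'.filter (fun p => ∀ κ ∈ B J, ∀ κ' ∈ B J,
          (p.2 : Eu d) + η • (κ - κ') + w ∈ interior K) ⊆ A.filter (fun p => ∀ κ ∈ B p.1,
          ∀ κ' ∈ B p.1, (p.2 : Eu d) + η • (κ - κ') + w ∈ interior K) := by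
        intro p hp
        obtain ⟨hp1, hp2⟩ := Finset.mem_filter.1 hp
        obtain ⟨hp3, hp4⟩ := Finset.mem_filter.1 hp1
        exact Finset.mem_filter.2 ⟨hp3, fun κ hκ κ' hκ' =>
          hp2 κ (hBmono _ hp4 hκ) κ' (hBmono _ hp4 hκ')⟩
      exact_mod_cast Finset.card_le_card hsub)
    ((n.choose r : ℝ) * (1 + 1 / η) ^ (d - r)) (by
      rw [Fintype.card_sigma]
      push_cast
      calc ∑ I : F, (Fintype.card (S I) : ℝ) ≤ ∑ _I : F, (1 + 1 / η) ^ (d - r) := by
            refine Finset.sum_le_sum fun I _ => ?_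
            rw [Fintype.card_coe]
            exact hS3 I
        _ = F.card * (1 + 1 / η) ^ (d - r) := by
            rw [Finset.sum_const, Finset.card_univ, Fintype.card_coe, nsmul_eq_mul]
        _ ≤ (n.choose r : ℝ) * (1 + 1 / η) ^ (d - r) := by
            refine mul_le_mul_of_nonneg_right ?_ (by positivity)
            exact_mod_cast hFc)
    (by
      calc (1 : ℝ) = 1 * 1 := (one_mul 1).symm
        _ ≤ _ := mul_le_mul hCnr (one_le_pow₀ hη1) zero_le_one (by positivity))
  obtain ⟨Y, hYc, hY⟩ := hcov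
  -- extreme points are illuminated
  have hill : ∀ x ∈ Set.extremePoints ℝ K, ∃ w ∈ Y, x + w ∈ interior K := by
    intro x hx
    obtain ⟨I, hI, hIi, hIx⟩ := hext x hx
    have hxB : x ∈ B I := ⟨hx.1, hIx⟩
    have hIF : I ∈ F := by
      refine Finset.mem_filter.2 ⟨Finset.mem_powersetCard.2 ⟨Finset.subset_univ _, hI⟩, hIi, x, hxB⟩
    obtain ⟨x', hx', κ, hκ, κ', hκ', hxx⟩ := hS2 ⟨I, hIF⟩ x hxB
    obtain ⟨w, hw, hw'⟩ := hY ⟨⟨I, hIF⟩, ⟨x', hx'⟩⟩
    refine ⟨w, hw, ?_⟩
    rw [hxx]
    exact hw' κ hκ κ' hκ'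
  have hYne : Y.Nonempty := by
    obtain ⟨w, hw, -⟩ := hill x₀ hx₀
    exact ⟨w, hw⟩
  obtain ⟨T, hT, hcovT⟩ := Pool.Agent.TH84.HC.cover_of_illum hK hKc Y hYne (by
    intro x hx
    obtain ⟨v, hv, hdom⟩ := Pool.Agent.TH84.HC.extreme_dom hK hKc hKi hx
    obtain ⟨w, hw, hw'⟩ := hill v hv
    exact ⟨w, hw, hdom w ⟨1, one_pos, by rw [one_smul]; exact hw'⟩⟩)
  refine ⟨T, hT.trans (hYc.trans (le_of_eq ?_)), hcovT⟩
  rw [Real.log_mul (by positivity) (by positivity), Real.log_pow]
  have hinv : (l / (1 + l))⁻¹ = 1 + 1 / l := by field_simp; ring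
  rw [div_eq_mul_inv, mul_inv, ← inv_pow, hinv, inv_div]
  ring

end Q172.Hadw
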