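import Mathlib
import Pool.Agent.TH84.HC.Cover

set_option autoImplicit false

/-!
Truncations of parallelotopes.
-/

namespace Q172.Hadw

open Module Filter Topology
open scoped Pointwise

/-- The Euclidean space. -/
abbrev Ed (d : ℕ) : Type := EuclideanSpace ℝ (Fin d)

variable {d : ℕ}

/-- the coordinates of `x` with respect to the basis `β` and the origin `o` -/
noncomputable def crd (β : Basis (Fin d) ℝ (Ed d)) (o x : Ed d) (i : Fin d) : ℝ :=
  β.repr (x - o) i

/-- the parallelotope with centre `o` and half-edges `β i` -/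
def Par (β : Basis (Fin d) ℝ (Ed d)) (o : Ed d) : Set (Ed d) := {x | ∀ i, |crd β o x i| ≤ 1}

/-- `D` is closed under moving away from the vertex `σ` of the parallelotope: decreasing
`σ i * crd x i` -/
def Away (β : Basis (Fin d) ℝ (Ed d)) (o : Ed d) (σ : Fin d → ℝ) (D : Set (Ed d)) : Prop :=
  ∀ x ∈ D, ∀ z, (∀ i, σ i * crd β o z i ≤ σ i * crd β o x i) → z ∈ D

theorem crd_continuous (β : Basis (Fin d) ℝ (Ed d)) (o : Ed d) (i : Fin d) :
    Continuous (fun x => crd β o x i) := by
  have h1 : Continuous (β.coord i) := LinearMap.continuous_of_finiteDimensional _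
  exact h1.comp (continuous_id.sub continuous_const)

theorem crd_add_smul (β : Basis (Fin d) ℝ (Ed d)) (o x w : Ed d) (t : ℝ) (i : Fin d) :
    crd β o (x + t • w) i = crd β o x i + t * β.repr w i := by
  unfold crd
  have : x + t • w - o = (x - o) + t • w := by abel
  rw [this, map_add, map_smul]
  rfl

theorem crd_combo (β : Basis (Fin d) ℝ (Ed d)) (o x p : Ed d) (s : ℝ) (i : Fin d) :
    crd β o (x + s • (p - x)) i = crd β o x i + s * (crd β o p i - crd β o x i) := by
  rw [crd_add_smul]
  unfold crd
  congr 2
  have : p - x = (p - o) - (x - o) := by abel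
  rw [this, map_sub]
  rfl

theorem mem_interior_par {β : Basis (Fin d) ℝ (Ed d)} {o x : Ed d} (h : ∀ i, |crd β o x i| < 1) :
    x ∈ interior (Par β o) := by
  have h1 : IsOpen {x : Ed d | ∀ i, |crd β o x i| < 1} := by
    have : {x : Ed d | ∀ i, |crd β o x i| < 1} = ⋂ i, {x | |crd β o x i| < 1} := by
      ext x; simp
    rw [this]
    exact isOpen_iInter_of_finite fun i =>
      isOpen_lt (crd_continuous β o i).abs continuous_const
  exact interior_maximal (fun y hy i => (hy i).le) h1 h

theorem lt_of_interior_par {β : Basis (Fin d) ℝ (Ed d)} {o x : Ed d}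
    (h : x ∈ interior (Par β o)) (i : Fin d) : |crd β o x i| < 1 := by
  have h1 : ∀ w : Ed d, ∀ᶠ t in 𝓝[>] (0:ℝ), x + t • w ∈ Par β o := by
    intro w
    have hc : Continuous (fun t : ℝ => x + t • w) := by fun_prop
    have h0 : (fun t : ℝ => x + t • w) 0 ∈ interior (Par β o) := by simpa using h
    exact ((hc.continuousAt.eventually (isOpen_interior.mem_nhds h0)).filter_mono
      nhdsWithin_le_nhds).mono fun t ht => interior_subset ht
  obtain ⟨t, ⟨ht1, ht2⟩, ht⟩ := (((h1 (β i)).and (h1 (-β i))).and self_mem_nhdsWithin).exists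
  have ht' : (0:ℝ) < t := ht
  have e1 := ht1 i
  have e2 := ht2 i
  rw [crd_add_smul] at e1 e2
  rw [map_neg] at e2
  simp only [Basis.repr_self, Finsupp.single_eq_same, Finsupp.coe_neg, Pi.neg_apply] at e1 e2
  rw [abs_le] at e1 e2
  rw [abs_lt]
  constructor <;> linarith

/-- the interior of a set closed under moving away is closed under moving away -/
theorem away_interior {β : Basis (Fin d) ℝ (Ed d)} {o : Ed d} {σ : Fin d → ℝ} {D : Set (Ed d)}
    (hD : Away β o σ D) : Away β o σ (interior D) := by
  intro x hx z hz
  have h1 : (fun y => y + (x - z)) ⁻¹' (interior D) ⊆ D := by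
    intro y hy
    refine hD _ (interior_subset hy) y fun i => ?_
    have : crd β o (y + (x - z)) i = crd β o y i + (crd β o x i - crd β o z i) := by
      unfold crd
      have e : y + (x - z) - o = (y - o) + ((x - o) - (z - o)) := by abel
      rw [e, map_add, map_sub β.repr (x - o) (z - o)]
      rfl
    rw [this, mul_add, mul_sub]
    linarith [hz i]
  have h2 : IsOpen ((fun y : Ed d => y + (x - z)) ⁻¹' (interior D)) :=
    isOpen_interior.preimage (by fun_prop)
  refine interior_maximal h1 h2 ?_
  show z + (x - z) ∈ interior D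
  rw [add_sub_cancel]
  exact hx

/-- **Truncations of a parallelotope.** -/
theorem trunc_cover {N : ℕ} (K : Set (Ed d)) (hK : Convex ℝ K) (hKc : IsCompact K)
    (hKi : (interior K).Nonempty) (β : Basis (Fin d) ℝ (Ed d)) (o : Ed d)
    (D : Fin N → Set (Ed d)) (σ : Fin N → Fin d → ℝ) (hσ : ∀ k i, σ k i = 1 ∨ σ k i = -1)
    (hD : ∀ k, Convex ℝ (D k)) (hA : ∀ k, Away β o (σ k) (D k))
    (hKD : K = Par β o ∩ ⋂ k, D k)
    (hdisj : ∀ x ∈ Par β o, ∀ k l, k ≠ l → x ∈ interior (D k) ∨ x ∈ interior (D l)) :
    ∃ T : Finset (Ed d), T.card ≤ 2 ^ d ∧ K ⊆ ⋃ t ∈ T, (fun x => t + x) '' interior K := by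
  classical
  obtain ⟨p, hp⟩ := hKi
  have hintK : interior K = interior (Par β o) ∩ ⋂ k, interior (D k) := by
    rw [hKD, interior_inter, interior_iInter_of_finite]
  have hpC : p ∈ interior (Par β o) := by rw [hintK] at hp; exact hp.1
  have hpD : ∀ k, p ∈ interior (D k) := by
    rw [hintK] at hp; exact Set.mem_iInter.1 hp.2
  -- the distance of `p` from the boundary of the parallelotope
  obtain ⟨δ, hδ0, hδ⟩ : ∃ δ : ℝ, 0 < δ ∧ ∀ i, |crd β o p i| ≤ 1 - δ := by
    rcases Nat.eq_zero_or_pos d with h0 | h0
    · subst h0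
      exact ⟨1, one_pos, fun i => i.elim0⟩
    · have : Nonempty (Fin d) := ⟨⟨0, h0⟩⟩
      obtain ⟨i₀, -, hi₀⟩ := Finset.exists_max_image Finset.univ (fun i => |crd β o p i|)
        Finset.univ_nonempty
      refine ⟨1 - |crd β o p i₀|, sub_pos.2 (lt_of_interior_par hpC i₀), fun i => ?_⟩
      have := hi₀ i (Finset.mem_univ i)
      linarith
  set M : ℝ := 2 / δ with hM
  have hM0 : 0 < M := by positivity
  -- the vertices
  let V : Type := Fin d → Bool
  let sg : V → Fin d → ℝ := fun η i => if η i then 1 else -1
  have hsg : ∀ (η : V) i, sg η i = 1 ∨ sg η i = -1 := by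
    intro η i
    by_cases h : η i = true
    · left; simp [sg, h]
    · right; simp [sg, h]
  let vert : V → Ed d := fun η => o + ∑ i, sg η i • β i
  have hvert : ∀ (η : V) i, crd β o (vert η) i = sg η i := by
    intro η i
    unfold crd
    simp only [vert, add_sub_cancel_left]
    rw [Basis.repr_sum_self]
  -- the direction for the vertex `η` and the sign vector `τ`
  let dir : (Fin d → ℝ) → V → Ed d := fun τ η =>
    ∑ i, (-(sg η i) * (if sg η i = τ i then M else 1)) • β i
  have hdir : ∀ (τ : Fin d → ℝ) (η : V) i, β.repr (dir τ η) i =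
      -(sg η i) * (if sg η i = τ i then M else 1) := by
    intro τ η i
    simp only [dir]
    rw [Basis.repr_sum_self]
  let U : V → Ed d := fun η => if h : ∃ k, vert η ∉ interior (D k) then dir (σ h.choose) η
    else dir (fun _ => 1) η
  -- each `U η` is `dir τ η` for some `τ`
  have hUform : ∀ η, ∃ τ : Fin d → ℝ, U η = dir τ η := by
    intro η
    simp only [U]
    split_ifs with h
    · exact ⟨_, rfl⟩
    · exact ⟨_, rfl⟩
  have hvertC : ∀ η, vert η ∈ Par β o := by
    intro η i
    rw [hvert]
    rcases hsg η i with h | h <;> rw [h] <;> simp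
  have hUk : ∀ η k, vert η ∉ interior (D k) → U η = dir (σ k) η := by
    intro η k hk
    have h : ∃ k, vert η ∉ interior (D k) := ⟨k, hk⟩
    have hck : h.choose = k := by
      by_contra hne
      rcases hdisj _ (hvertC η) _ _ hne with h1 | h1
      · exact h.choose_spec h1
      · exact hk h1
    simp only [U]
    rw [dif_pos h, hck]
  -- moving into the parallelotope
  have hmoveC : ∀ x ∈ Par β o, ∀ (η : V) (τ : Fin d → ℝ),
      (∀ i, |crd β o x i| = 1 → crd β o x i = sg η i) →
      ∀ᶠ t in 𝓝[>] (0:ℝ), x + t • dir τ η ∈ interior (Par β o) := by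
    intro x hx η τ hxη
    have h1 : ∀ i, ∀ᶠ t in 𝓝[>] (0:ℝ), |crd β o (x + t • dir τ η) i| < 1 := by
      intro i
      simp_rw [crd_add_smul, hdir]
      set m : ℝ := if sg η i = τ i then M else 1 with hm
      have hm0 : 0 < m := by
        rw [hm]; split_ifs
        · exact hM0
        · exact one_pos
      by_cases hi : |crd β o x i| = 1
      · rw [hxη i hi]
        have hlt : ∀ᶠ t in 𝓝[>] (0:ℝ), t < 1 / m :=
          (eventually_lt_nhds (by positivity : (0:ℝ) < 1 / m)).filter_mono nhdsWithin_le_nhds
        filter_upwards [hlt, self_mem_nhdsWithin] with t ht ht0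
        have ht0' : (0:ℝ) < t := ht0
        have htm : t * m < 1 := by rwa [lt_div_iff₀ hm0] at ht
        have htm0 : 0 < t * m := by positivity
        rcases hsg η i with h | h <;> rw [h, abs_lt] <;> constructor <;> nlinarith
      · have hlt : |crd β o x i| < 1 := lt_of_le_of_ne (hx i) hi
        have hc : Continuous (fun t : ℝ => |crd β o x i + t * (-(sg η i) * m)|) := by fun_prop
        have h0 : (fun t : ℝ => |crd β o x i + t * (-(sg η i) * m)|) 0 < 1 := by simpa using hlt
        exact (hc.continuousAt.eventually_lt continuousAt_const h0).filter_mono nhdsWithin_le_nhds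
    exact (eventually_all.2 h1).mono fun t ht => mem_interior_par ht
  -- moving from the interior of `D l`
  have hmoveI : ∀ (x w : Ed d) (l : Fin N), x ∈ interior (D l) →
      ∀ᶠ t in 𝓝[>] (0:ℝ), x + t • w ∈ interior (D l) := by
    intro x w l hx
    have hc : Continuous (fun t : ℝ => x + t • w) := by fun_prop
    have h0 : (fun t : ℝ => x + t • w) 0 ∈ interior (D l) := by simpa using hx
    exact (hc.continuousAt.eventually (isOpen_interior.mem_nhds h0)).filter_mono
      nhdsWithin_le_nhds
  -- illumination
  have hill : ∀ x ∈ K, ∃ η : V, ∃ t : ℝ, 0 < t ∧ x + t • U η ∈ interior K := by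
    intro x hx
    have hxC : x ∈ Par β o := by rw [hKD] at hx; exact hx.1
    have hxD : ∀ k, x ∈ D k := by rw [hKD] at hx; exact Set.mem_iInter.1 hx.2
    by_cases hall : ∀ k, x ∈ interior (D k)
    · let η : V := fun i => decide (crd β o x i = 1)
      obtain ⟨τ, hτ⟩ := hUform η
      have h1 := hmoveC x hxC η τ (by
        intro i hi
        by_cases h : crd β o x i = 1
        · simp [sg, η, h]
        · have h2 : crd β o x i = -1 := by
            rcases abs_eq (zero_le_one' ℝ) |>.1 hi with h3 | h3
            · exact absurd h3 h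
            · exact h3
          simp only [sg, η, h2]
          norm_num)
      have h2 : ∀ᶠ t in 𝓝[>] (0:ℝ), ∀ l, x + t • dir τ η ∈ interior (D l) :=
        eventually_all.2 fun l => hmoveI x _ l (hall l)
      obtain ⟨t, ⟨ht1, ht2⟩, ht⟩ := ((h1.and h2).and self_mem_nhdsWithin).exists
      refine ⟨η, t, ht, ?_⟩
      rw [hτ, hintK]
      exact ⟨ht1, Set.mem_iInter.2 ht2⟩
    · push Not at hall
      obtain ⟨k, hk⟩ := hall
      let η : V := fun i => decide (crd β o x i = 1 ∨ (crd β o x i ≠ -1 ∧ σ k i = 1))
      -- properties of `η`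
      have hη1 : ∀ i, |crd β o x i| = 1 → crd β o x i = sg η i := by
        intro i hi
        by_cases h : crd β o x i = 1
        · simp [sg, η, h]
        · have h2 : crd β o x i = -1 := by
            rcases abs_eq (zero_le_one' ℝ) |>.1 hi with h3 | h3
            · exact absurd h3 h
            · exact h3
          simp only [sg, η, h2]
          norm_num
      have hη2 : ∀ i, |crd β o x i| ≠ 1 → sg η i = σ k i := by
        intro i hi
        have h1 : crd β o x i ≠ 1 := fun h => hi (by rw [h]; simp)
        have h2 : crd β o x i ≠ -1 := fun h => hi (by rw [h]; simp)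
        rcases hσ k i with h3 | h3
        · simp [sg, η, h1, h2, h3]
        · have h4 : ¬ ((-1 : ℝ) = 1) := by norm_num
          simp [sg, η, h1, h2, h3, h4]
      -- the vertex is not in the interior of `D k`
      have hvk : vert η ∉ interior (D k) := by
        intro hv
        apply hk
        refine away_interior (hA k) _ hv x fun i => ?_
        rw [hvert]
        by_cases hi : |crd β o x i| = 1
        · rw [hη1 i hi]
        · rw [hη2 i hi]
          have h1 := abs_le.1 (hxC i)
          rcases hσ k i with h3 | h3 <;> rw [h3] <;> linarith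
      have hU := hUk η k hvk
      have h1 := hmoveC x hxC η (σ k) hη1
      have h2 : ∀ᶠ t in 𝓝[>] (0:ℝ), ∀ l, l ≠ k → x + t • dir (σ k) η ∈ interior (D l) := by
        refine eventually_all.2 fun l => ?_
        by_cases hl : l = k
        · exact Eventually.of_forall fun t h => absurd hl h
        · rcases hdisj x hxC l k hl with h3 | h3
          · exact (hmoveI x _ l h3).mono fun t ht _ => ht
          · exact absurd h3 hk
      have h3 : ∀ᶠ t in 𝓝[>] (0:ℝ), t < δ :=
        (eventually_lt_nhds hδ0).filter_mono nhdsWithin_le_nhds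
      obtain ⟨t, ⟨⟨ht1, ht2⟩, ht3⟩, ht⟩ := (((h1.and h2).and h3).and self_mem_nhdsWithin).exists
      have ht0 : (0:ℝ) < t := ht
      refine ⟨η, t, ht0, ?_⟩
      rw [hU, hintK]
      refine ⟨ht1, Set.mem_iInter.2 fun l => ?_⟩
      by_cases hl : l = k
      · subst hl
        -- compare with a point on the segment to `p`
        set s : ℝ := t / δ with hs
        have hs0 : 0 < s := by positivity
        have hs1 : s < 1 := by rw [hs, div_lt_one hδ0]; exact ht3
        have hq : x + s • (p - x) ∈ interior (D l) := by
          have e : x + s • (p - x) = (1 - s) • x + s • p := by module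
          rw [e]
          exact (hD l).combo_self_interior_mem_interior (hxD l) (hpD l) (by linarith) hs0 (by ring)
        refine away_interior (hA l) _ hq _ fun i => ?_
        rw [crd_add_smul, hdir, crd_combo]
        have hpi := abs_le.1 (hδ i)
        have hxi := abs_le.1 (hxC i)
        have hsδ : s * δ = t := by rw [hs]; field_simp
        have htM : t * M = 2 * s := by rw [hM, hs]; field_simp
        by_cases hi : sg η i = σ l i
        · rw [if_pos hi, hi]
          rcases hσ l i with h4 | h4 <;> rw [h4] <;> nlinarith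
        · rw [if_neg hi]
          have hi2 : |crd β o x i| = 1 := by
            by_contra h5
            exact hi (hη2 i h5)
          have hxs := hη1 i hi2
          rw [hxs]
          rcases hσ l i with h4 | h4 <;> rcases hsg η i with h5 | h5 <;>
            rw [h4, h5] at hi ⊢ <;> first | exact absurd rfl hi | nlinarith
      · exact ht2 l hl
  -- the conclusion
  obtain ⟨T, hT, hcov⟩ := Pool.Agent.TH84.HC.cover_of_illum hK hKc (Finset.univ.image U)
    ((Finset.univ_nonempty (α := V)).image U) (by
      intro x hx
      obtain ⟨η, t, ht, hxt⟩ := hill x (hKc.isClosed.frontier_subset hx)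
      exact ⟨U η, Finset.mem_image_of_mem _ (Finset.mem_univ η), t, ht, hxt⟩)
  refine ⟨T, ?_, hcov⟩
  have h1 : T.card ≤ (Finset.univ.image U).card := by exact_mod_cast hT
  refine h1.trans (Finset.card_image_le.trans ?_)
  rw [Finset.card_univ]
  simp [V]

end Q172.Hadw
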