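import Mathlib
import Pool.Agent.H2R2.Frac.Primal
import Pool.Agent.Q172.Hadw.Trunc
import Pool.Agent.TH84.NC.Pos

set_option autoImplicit false

/-!
Multiple coverings: stability and rounding.
-/

namespace Q172.Hadw

open Module Filter Topology
open scoped Pointwise

variable {d : ℕ}

/-- `K` has a `k`-fold covering by `N` translates of its interior: the translates `t + int K`, `t ∈ T`,
taken with the multiplicities `m t`, cover each point of `K` at least `k` times, and the sum of
the multiplicities is at most `N` -/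
def KFold (K : Set (Ed d)) (k N : ℕ) : Prop :=
  ∃ (T : Finset (Ed d)) (m : Ed d → ℕ), ∑ t ∈ T, m t ≤ N ∧
    ∀ x ∈ K, k ≤ ∑ t ∈ T, (interior K).indicator (fun _ => m t) (x - t)

/-- the weighted family `(T, w)` covers `K` -/
def FCov (K : Set (Ed d)) (T : Finset (Ed d)) (w : Ed d → ℝ) : Prop :=
  ∀ x ∈ K, 1 ≤ ∑ t ∈ T, (interior K).indicator (fun _ => w t) (x - t)

/-- `L` and `M` are close, up to homothety -/
def Near (s : ℝ) (L M : Set (Ed d)) : Prop :=
  (∀ y ∈ L, (1 + s)⁻¹ • y ∈ M) ∧ (∀ x ∈ M, (1 + s)⁻¹ • x ∈ L)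

theorem smul_int {L : Set (Ed d)} (hL : Convex ℝ L) (h0 : (0 : Ed d) ∈ interior L) {v : Ed d}
    (hv : v ∈ interior L) {c : ℝ} (hc : 0 ≤ c) (hc1 : c ≤ 1) : c • v ∈ interior L := by
  have h := hL.interior h0 hv (sub_nonneg.2 hc1) hc (by ring)
  rwa [smul_zero, zero_add] at h

/-- fractional coverings are stable -/
theorem frac_stable (L : Set (Ed d)) (hL : Convex ℝ L) (hLc : IsCompact L)
    (h0 : (0 : Ed d) ∈ interior L) (T : Finset (Ed d)) (w : Ed d → ℝ) (hw : ∀ t ∈ T, 0 ≤ w t)
    (hcov : FCov L T w) :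
    ∃ s : ℝ, 0 < s ∧ ∀ M : Set (Ed d), Convex ℝ M → Near s L M → FCov M T w := by
  classical
  let μ : ℕ → ℝ := fun n => 1 - 1 / ((n : ℝ) + 2)
  have hμ0 : ∀ n, 0 < μ n := by
    intro n
    have h1 : (1 : ℝ) / ((n : ℝ) + 2) < 1 := by
      rw [div_lt_one (by positivity)]
      have : (0 : ℝ) ≤ n := by positivity
      linarith
    show 0 < 1 - 1 / ((n : ℝ) + 2)
    linarith
  have hμ1 : ∀ n, μ n < 1 := by
    intro n
    have h1 : (0 : ℝ) < 1 / ((n : ℝ) + 2) := by positivity
    show 1 - 1 / ((n : ℝ) + 2) < 1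
    linarith
  have hμmono : ∀ n m : ℕ, n ≤ m → μ n ≤ μ m := by
    intro n m hnm
    have h1 : (1 : ℝ) / ((m : ℝ) + 2) ≤ 1 / ((n : ℝ) + 2) := by
      apply one_div_le_one_div_of_le (by positivity)
      have : (n : ℝ) ≤ m := by exact_mod_cast hnm
      linarith
    show 1 - 1 / ((n : ℝ) + 2) ≤ 1 - 1 / ((m : ℝ) + 2)
    linarith
  have hμlim : Tendsto μ atTop (𝓝 1) := by
    have h1 : Tendsto (fun n : ℕ => 1 / ((n : ℝ) + 2)) atTop (𝓝 0) := by
      have h2 := (tendsto_one_div_add_atTop_nhds_zero_nat (𝕜 := ℝ)).comp (tendsto_add_atTop_nat 1)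
      refine h2.congr fun n => ?_
      simp only [Function.comp]
      push_cast
      ring_nf
    have h2 := h1.const_sub 1
    rwa [sub_zero] at h2
  let O : ℕ → Set (Ed d) := fun n => ⋃ A ∈ (T.powerset.filter fun A => 1 ≤ ∑ t ∈ A, w t),
    ⋂ t ∈ A, {x | (μ n)⁻¹ • (x - t) ∈ interior L}
  have hO : ∀ n, IsOpen (O n) := by
    intro n
    refine isOpen_biUnion fun A _ => isOpen_biInter_finset fun t _ => ?_
    exact isOpen_interior.preimage (by fun_prop)
  have hLO : L ⊆ ⋃ n, O n := by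
    intro x hx
    set A : Finset (Ed d) := T.filter fun t => x - t ∈ interior L with hA
    have hA1 : 1 ≤ ∑ t ∈ A, w t := by
      refine (hcov x hx).trans (le_of_eq ?_)
      rw [hA, Finset.sum_filter]
      refine Finset.sum_congr rfl fun t _ => ?_
      by_cases h : x - t ∈ interior L
      · rw [Set.indicator_of_mem h, if_pos h]
      · rw [Set.indicator_of_notMem h, if_neg h]
    have hev : ∀ᶠ n in atTop, ∀ t ∈ A, (μ n)⁻¹ • (x - t) ∈ interior L := by
      rw [Finset.eventually_all]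
      intro t ht
      have h1 : Tendsto (fun n => (μ n)⁻¹ • (x - t)) atTop (𝓝 ((1 : ℝ)⁻¹ • (x - t))) :=
        (hμlim.inv₀ one_ne_zero).smul_const _
      rw [inv_one, one_smul] at h1
      exact h1.eventually (isOpen_interior.mem_nhds (Finset.mem_filter.1 ht).2)
    obtain ⟨n, hn⟩ := hev.exists
    refine Set.mem_iUnion.2 ⟨n, Set.mem_iUnion₂.2 ⟨A, ?_, Set.mem_iInter₂.2 hn⟩⟩
    exact Finset.mem_filter.2 ⟨Finset.mem_powerset.2 (Finset.filter_subset _ _), hA1⟩
  obtain ⟨S, hS⟩ := hLc.elim_finite_subcover O hO hLO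
  set N : ℕ := S.sup id with hN
  have hLN : ∀ x ∈ L, ∃ A ⊆ T, 1 ≤ ∑ t ∈ A, w t ∧ ∀ t ∈ A, (μ N)⁻¹ • (x - t) ∈ interior L := by
    intro x hx
    obtain ⟨n, hn, hxn⟩ := Set.mem_iUnion₂.1 (hS hx)
    obtain ⟨A, hA, hxA⟩ := Set.mem_iUnion₂.1 hxn
    obtain ⟨hA1, hA2⟩ := Finset.mem_filter.1 hA
    refine ⟨A, Finset.mem_powerset.1 hA1, hA2, fun t ht => ?_⟩
    have h1 : (μ n)⁻¹ • (x - t) ∈ interior L := Set.mem_iInter₂.1 hxA t ht
    have hnN : n ≤ N := Finset.le_sup (f := id) hn
    have e : (μ N)⁻¹ • (x - t) = (μ n / μ N) • ((μ n)⁻¹ • (x - t)) := by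
      rw [smul_smul]
      congr 1
      have := (hμ0 n).ne'
      field_simp
    rw [e]
    exact smul_int hL h0 h1 (div_nonneg (hμ0 n).le (hμ0 N).le)
      ((div_le_one (hμ0 N)).2 (hμmono n N hnN))
  set s : ℝ := (1 - μ N) / 3 with hs
  have hs0 : 0 < s := by
    rw [hs]; linarith [hμ1 N]
  refine ⟨s, hs0, fun M hM hnear x hx => ?_⟩
  obtain ⟨A, hAT, hA1, hA⟩ := hLN _ (hnear.2 x hx)
  have hx' := hnear.2 x hx
  have h1s : (0 : ℝ) < 1 + s := by linarith
  have hmem : ∀ t ∈ A, x - t ∈ interior M := by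
    intro t ht
    have hu := hA t ht
    obtain ⟨u, hudef⟩ : ∃ u, u = (μ N)⁻¹ • ((1 + s)⁻¹ • x - t) := ⟨_, rfl⟩
    rw [← hudef] at hu
    set c : ℝ := (1 + s) * (μ N + s) with hc
    have hc1 : c ≤ 1 := by
      have h1 : μ N = 1 - 3 * s := by rw [hs]; ring
      rw [hc, h1]
      nlinarith
    have hμs : 0 < μ N + s := by linarith [hμ0 N]
    have hc0 : 0 ≤ c := by positivity
    have hv : (μ N / (μ N + s)) • u + (s / (μ N + s)) • ((1 + s)⁻¹ • x) ∈ interior L := by
      refine hL.combo_interior_self_mem_interior hu hx' (div_pos (hμ0 N) hμs) (by positivity) ?_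
      rw [← add_div, div_self hμs.ne']
    have h3 := smul_int hL h0 hv hc0 hc1
    have h4 : x - t = (1 + s)⁻¹ • (c • ((μ N / (μ N + s)) • u +
        (s / (μ N + s)) • ((1 + s)⁻¹ • x))) := by
      have hμN := (hμ0 N).ne'
      have a1 : c * (μ N / (μ N + s)) = (1 + s) * μ N := by rw [hc]; field_simp
      have a2 : c * (s / (μ N + s)) * (1 + s)⁻¹ = s := by rw [hc]; field_simp
      have e1 : c • ((μ N / (μ N + s)) • u + (s / (μ N + s)) • ((1 + s)⁻¹ • x)) =
          ((1 + s) * μ N) • u + s • x := by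
        rw [smul_add, smul_smul c _ u, smul_smul c, a1, smul_smul, a2]
      have e2 : (1 + s)⁻¹ * ((1 + s) * μ N) * (μ N)⁻¹ = 1 := by
        field_simp
      have e5 : (1 + s)⁻¹ + (1 + s)⁻¹ * s = 1 := by field_simp
      rw [e1, hudef, smul_add, smul_smul, smul_smul, smul_smul, e2, one_smul]
      calc x - t = (1 : ℝ) • x - t := by rw [one_smul]
        _ = ((1 + s)⁻¹ + (1 + s)⁻¹ * s) • x - t := by rw [e5]
        _ = _ := by rw [add_smul]; abel
    rw [h4]
    have h5 : IsOpen ((fun z : Ed d => (1 + s) • z) ⁻¹' interior L) :=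
      isOpen_interior.preimage (by fun_prop)
    have h6 : (fun z : Ed d => (1 + s) • z) ⁻¹' interior L ⊆ M := by
      intro z hz
      have h7 := hnear.1 _ (interior_subset hz)
      rwa [smul_smul, inv_mul_cancel₀ h1s.ne', one_smul] at h7
    refine interior_maximal h6 h5 ?_
    show (1 + s) • (1 + s)⁻¹ • _ ∈ interior L
    rw [smul_smul, mul_inv_cancel₀ h1s.ne', one_smul]
    exact h3
  calc (1 : ℝ) ≤ ∑ t ∈ A, w t := hA1
    _ = ∑ t ∈ A, (interior M).indicator (fun _ => w t) (x - t) :=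
        Finset.sum_congr rfl fun t ht => by rw [Set.indicator_of_mem (hmem t ht)]
    _ ≤ ∑ t ∈ T, (interior M).indicator (fun _ => w t) (x - t) := by
        refine Finset.sum_le_sum_of_subset_of_nonneg hAT fun t ht _ => ?_
        exact Set.indicator_nonneg (fun _ _ => hw t ht) _

/-- rounding a fractional covering -/
theorem kfold_of_frac (K : Set (Ed d)) (T : Finset (Ed d)) (w : Ed d → ℝ)
    (hw : ∀ t ∈ T, 0 ≤ w t) (hcov : FCov K T w) (k N : ℕ)
    (h : k * ∑ t ∈ T, w t + T.card ≤ N) : KFold K k N := by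
  classical
  refine ⟨T, fun t => ⌈(k : ℝ) * w t⌉₊, ?_, fun x hx => ?_⟩
  · have h1 : ((∑ t ∈ T, ⌈(k : ℝ) * w t⌉₊ : ℕ) : ℝ) ≤ N := by
      push_cast
      calc ∑ t ∈ T, (⌈(k : ℝ) * w t⌉₊ : ℝ) ≤ ∑ t ∈ T, ((k : ℝ) * w t + 1) := by
            refine Finset.sum_le_sum fun t ht => ?_
            exact (Nat.ceil_lt_add_one (mul_nonneg (by positivity) (hw t ht))).le
        _ = k * ∑ t ∈ T, w t + T.card := by
            rw [Finset.sum_add_distrib, ← Finset.mul_sum, Finset.sum_const, nsmul_eq_mul, mul_one]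
        _ ≤ N := h
    exact_mod_cast h1
  · have h1 : (k : ℝ) ≤ ((∑ t ∈ T, (interior K).indicator (fun _ => ⌈(k : ℝ) * w t⌉₊) (x - t) : ℕ) : ℝ) := by
      push_cast
      calc (k : ℝ) = k * 1 := (mul_one _).symm
        _ ≤ k * ∑ t ∈ T, (interior K).indicator (fun _ => w t) (x - t) :=
            mul_le_mul_of_nonneg_left (hcov x hx) (by positivity)
        _ = ∑ t ∈ T, k * (interior K).indicator (fun _ => w t) (x - t) := Finset.mul_sum _ _ _
        _ ≤ _ := by
            refine Finset.sum_le_sum fun t ht => ?_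
            by_cases hxt : x - t ∈ interior K
            · rw [Set.indicator_of_mem hxt, Set.indicator_of_mem hxt]
              exact Nat.le_ceil _
            · rw [Set.indicator_of_notMem hxt, Set.indicator_of_notMem hxt, mul_zero]
              simp
    exact_mod_cast h1

/-- a covering, each translate taken `k` times -/
theorem kfold_of_cov (K : Set (Ed d)) (T : Finset (Ed d)) (hcov : FCov K T fun _ => 1) (k N : ℕ)
    (h : k * T.card ≤ N) : KFold K k N := by
  classical
  refine ⟨T, fun _ => k, ?_, fun x hx => ?_⟩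
  · rw [Finset.sum_const, smul_eq_mul, mul_comm]; exact h
  · have h1 : ∃ t ∈ T, x - t ∈ interior K := by
      by_contra hcon
      push Not at hcon
      have h2 := hcov x hx
      rw [Finset.sum_eq_zero fun t ht => Set.indicator_of_notMem (hcon t ht) _] at h2
      linarith
    obtain ⟨t, ht, hxt⟩ := h1
    calc k = (interior K).indicator (fun _ => k) (x - t) := by rw [Set.indicator_of_mem hxt]
      _ ≤ ∑ t ∈ T, (interior K).indicator (fun _ => k) (x - t) :=
          Finset.single_le_sum (f := fun t => (interior K).indicator (fun _ => k) (x - t))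
            (fun _ _ => Nat.zero_le _) ht

/-- the local statement -/
theorem local_kfold (hd : 1 ≤ d) (L : Set (Ed d)) (hL : Convex ℝ L) (hLc : IsCompact L)
    (h0 : (0 : Ed d) ∈ interior L) :
    ∃ (s : ℝ) (k₀ : ℕ), 0 < s ∧ ∀ M : Set (Ed d), Convex ℝ M → Near s L M →
      ∀ k, k₀ ≤ k → KFold M k (k * 2 ^ d) := by
  classical
  obtain ⟨-, hpar⟩ := Pool.Agent.H2R2.Frac.primal d hd L hLc hL ⟨0, h0⟩
  by_cases hp : ∃ (p : EuclideanSpace ℝ (Fin d)) (v : Fin d → EuclideanSpace ℝ (Fin d)),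
      LinearIndependent ℝ v ∧
      L = {x | ∃ a : Fin d → ℝ, (∀ i, 0 ≤ a i ∧ a i ≤ 1) ∧ x = p + ∑ i, a i • v i}
  · obtain ⟨p, v, hv, hLv⟩ := hp
    -- the parallelotope
    have hcard : Fintype.card (Fin d) = finrank ℝ (Ed d) := by simp
    have : Nonempty (Fin d) := ⟨⟨0, hd⟩⟩
    have hv2 : LinearIndependent ℝ (fun i => (2 : ℝ)⁻¹ • v i) :=
      hv.units_smul (fun _ => Units.mk0 (2 : ℝ)⁻¹ (by norm_num))
    let β : Basis (Fin d) ℝ (Ed d) := basisOfLinearIndependentOfCardEqFinrank hv2 hcard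
    have hβ : ∀ i, β i = (2 : ℝ)⁻¹ • v i := fun i => by simp [β]
    set o : Ed d := p + ∑ i, (2 : ℝ)⁻¹ • v i with ho
    have hLP : L = Par β o := by
      rw [hLv]
      ext x
      constructor
      · rintro ⟨a, ha, rfl⟩ i
        have h1 : crd β o (p + ∑ i, a i • v i) i = 2 * a i - 1 := by
          have h2 : p + ∑ i, a i • v i - o = ∑ i, (2 * a i - 1) • β i := by
            rw [ho]
            simp_rw [hβ, smul_smul]
            rw [add_sub_add_left_eq_sub, ← Finset.sum_sub_distrib]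
            refine Finset.sum_congr rfl fun i _ => ?_
            rw [← sub_smul]
            congr 1
            ring
          unfold crd
          rw [h2, Basis.repr_sum_self]
        rw [h1, abs_le]
        constructor <;> linarith [(ha i).1, (ha i).2]
      · intro hx
        refine ⟨fun i => (crd β o x i + 1) / 2, fun i => ?_, ?_⟩
        · have h1 := abs_le.1 (hx i)
          constructor <;> linarith
        · have h2 : x = o + ∑ i, crd β o x i • β i := by
            unfold crd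
            rw [β.sum_repr (x - o)]; abel
          conv_lhs => rw [h2]
          rw [ho, add_assoc, ← Finset.sum_add_distrib]
          congr 1
          refine Finset.sum_congr rfl fun i _ => ?_
          rw [hβ, smul_smul, ← add_smul]
          congr 1
          ring
    obtain ⟨T, hT, hcov⟩ := trunc_cover (N := 0) L hL hLc ⟨0, h0⟩ β o (fun k => k.elim0)
      (fun k => k.elim0) (fun k => k.elim0) (fun k => k.elim0) (fun k => k.elim0)
      (by rw [hLP]; simp) (fun x _ k => k.elim0)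
    have hF : FCov L T fun _ => 1 := by
      intro x hx
      obtain ⟨t, ht, y, hy, hxy⟩ := Set.mem_iUnion₂.1 (hcov hx)
      have hxt : x - t ∈ interior L := by
        have : x - t = y := by rw [← hxy]; simp
        rw [this]; exact hy
      calc (1 : ℝ) = (interior L).indicator (fun _ => (1 : ℝ)) (x - t) := by
            rw [Set.indicator_of_mem hxt]
        _ ≤ _ := Finset.single_le_sum
            (f := fun t => (interior L).indicator (fun _ => (1 : ℝ)) (x - t))
            (fun _ _ => Set.indicator_nonneg (fun _ _ => zero_le_one) _) ht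
    obtain ⟨s, hs, hst⟩ := frac_stable L hL hLc h0 T _ (fun _ _ => zero_le_one) hF
    refine ⟨s, 0, hs, fun M hM hnear k _ => ?_⟩
    exact kfold_of_cov M T (hst M hM hnear) k _ (Nat.mul_le_mul_left _ hT)
  · have h1 : ∃ (T : Finset (Ed d)) (w : Ed d → ℝ), (∀ t ∈ T, 0 ≤ w t) ∧ FCov L T w ∧
        ∑ t ∈ T, w t < 2 ^ d := by
      by_contra hcon
      apply hp
      apply hpar.1
      intro T w hw hcov
      by_contra h2
      exact hcon ⟨T, w, hw, hcov, not_le.1 h2⟩
    obtain ⟨T, w, hw, hcov, hlt⟩ := h1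
    obtain ⟨s, hs, hst⟩ := frac_stable L hL hLc h0 T w hw hcov
    refine ⟨s, ⌈(T.card : ℝ) / (2 ^ d - ∑ t ∈ T, w t)⌉₊, hs, fun M hM hnear k hk => ?_⟩
    refine kfold_of_frac M T w hw (hst M hM hnear) k _ ?_
    have h2 : (T.card : ℝ) / (2 ^ d - ∑ t ∈ T, w t) ≤ k := (Nat.le_ceil _).trans (by exact_mod_cast hk)
    rw [div_le_iff₀ (by linarith)] at h2
    push_cast
    nlinarith

end Q172.Hadw
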