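import Mathlib
import Pool.Agent.Q172.Hadw.Flat
import Pool.Agent.TH84.HC.Cover
import Pool.Agent.Results.MP_eba1ef_gt.AllConvexBodies

set_option autoImplicit false

/-!
Convex hulls of lower-dimensional sets.
-/

namespace Q172.Hadw

open Module Filter Topology
open scoped Pointwise
open Pool.Agent.W677.Summand (Eu Lset phi Cov)

/-- moving towards a point -/
theorem move_mono {V : Type*} [NormedAddCommGroup V] [NormedSpace ℝ V] {X : Set V}
    (hX : Convex ℝ X) {q y : V} (hq : q ∈ X) {μ ν : ℝ} (hμ : 0 ≤ μ) (hμν : μ ≤ ν)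
    (h : y + ν • (y - q) ∈ interior X) : y + μ • (y - q) ∈ interior X := by
  have h1 : (0 : ℝ) < 1 + ν := by linarith
  have e : y + μ • (y - q) = (1 - (1 + μ) / (1 + ν)) • q + ((1 + μ) / (1 + ν)) •
      (y + ν • (y - q)) := by
    have e1 : ((1 + μ) / (1 + ν)) • (y + ν • (y - q)) =
        (1 + μ) • y - ((1 + μ) / (1 + ν) * ν) • q := by
      have : y + ν • (y - q) = (1 + ν) • y - ν • q := by module
      rw [this, smul_sub, smul_smul, smul_smul, div_mul_cancel₀ _ h1.ne']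
    rw [e1]
    have e2 : (1 - (1 + μ) / (1 + ν)) - ((1 + μ) / (1 + ν) * ν) = -μ := by
      field_simp; ring
    have e3 : (1 - (1 + μ) / (1 + ν)) • q + ((1 + μ) • y - ((1 + μ) / (1 + ν) * ν) • q)
        = (1 + μ) • y + ((1 - (1 + μ) / (1 + ν)) - ((1 + μ) / (1 + ν) * ν)) • q := by module
    rw [e3, e2]
    module
  rw [e]
  refine hX.combo_self_interior_mem_interior hq h ?_ (by positivity) (by ring)
  rw [sub_nonneg, div_le_one h1]
  linarith

/-- a covering by translates of the interior leaves some room -/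
theorem cover_room {V : Type*} [NormedAddCommGroup V] [NormedSpace ℝ V] {X : Set V}
    (hX : Convex ℝ X) (hXc : IsCompact X) {q : V} (hq : q ∈ X) (T : Finset V)
    (hT : X ⊆ ⋃ t ∈ T, (fun x => t + x) '' interior X) :
    ∃ μ : ℝ, 0 < μ ∧ ∀ x ∈ X, ∃ t ∈ T, (x - t) + μ • ((x - t) - q) ∈ interior X := by
  let O : ℕ → Set V := fun n => ⋃ t ∈ T,
    {x | (x - t) + (1 / ((n:ℝ) + 1)) • ((x - t) - q) ∈ interior X}
  have hO : ∀ n, IsOpen (O n) := by
    intro n
    refine isOpen_biUnion fun t _ => ?_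
    exact isOpen_interior.preimage
      (by fun_prop : Continuous fun x : V => (x - t) + (1 / ((n:ℝ) + 1)) • ((x - t) - q))
  have hcov : X ⊆ ⋃ n, O n := by
    intro x hx
    obtain ⟨t, ht, y, hy, hxy⟩ := Set.mem_iUnion₂.1 (hT hx)
    have hy' : x - t = y := by rw [← hxy]; simp
    have hc : Continuous (fun s : ℝ => y + s • (y - q)) := by fun_prop
    have h0 : (fun s : ℝ => y + s • (y - q)) 0 ∈ interior X := by simpa using hy
    have h1 : ∀ᶠ s in 𝓝 (0:ℝ), y + s • (y - q) ∈ interior X :=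
      hc.continuousAt.eventually (isOpen_interior.mem_nhds h0)
    have h2 : Tendsto (fun n : ℕ => 1 / ((n:ℝ) + 1)) atTop (𝓝 0) :=
      tendsto_one_div_add_atTop_nhds_zero_nat
    obtain ⟨n, hn⟩ := (h2.eventually h1).exists
    refine Set.mem_iUnion.2 ⟨n, Set.mem_iUnion₂.2 ⟨t, ht, ?_⟩⟩
    show (x - t) + (1 / ((n:ℝ) + 1)) • ((x - t) - q) ∈ interior X
    rw [hy']; exact hn
  obtain ⟨s, hs⟩ := hXc.elim_finite_subcover O hO hcov
  set N : ℕ := s.sup id with hN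
  refine ⟨1 / ((N:ℝ) + 1), by positivity, fun x hx => ?_⟩
  obtain ⟨n, hn, hxn⟩ := Set.mem_iUnion₂.1 (hs hx)
  obtain ⟨t, ht, hxt⟩ := Set.mem_iUnion₂.1 hxn
  refine ⟨t, ht, ?_⟩
  have hnN : n ≤ N := Finset.le_sup (f := id) hn
  have hle : (1:ℝ) / ((N:ℝ) + 1) ≤ 1 / ((n:ℝ) + 1) := by
    apply one_div_le_one_div_of_le (by positivity)
    have : (n:ℝ) ≤ N := by exact_mod_cast hnN
    linarith
  exact move_mono hX hq (by positivity) hle hxt

variable {d : ℕ}

/-- a lower-dimensional convex subset of a body is illuminated by as many directions as it needs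
translates of its relative interior -/
theorem subset_illum {K B : Set (Eu d)} (hK : Convex ℝ K) (hKi : (interior K).Nonempty)
    (hB : Convex ℝ B) (hBc : IsCompact B) (hBK : B ⊆ K) (N : ℕ)
    (hN : ∃ T : Finset (Eu d), T.card ≤ N ∧
      B ⊆ ⋃ t ∈ T, (fun x => t + x) '' intrinsicInterior ℝ B) :
    ∃ U : Finset (Eu d), U.card ≤ N ∧ ∀ x ∈ B, ∃ u ∈ U, x + u ∈ interior K := by
  classical
  rcases B.eq_empty_or_nonempty with rfl | hne
  · exact ⟨∅, by simp, fun x hx => absurd hx (Set.notMem_empty x)⟩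
  obtain ⟨a₀, ha₀⟩ := hne
  obtain ⟨ι, hι⟩ := Pool.Agent.W677.Summand.coords (vectorSpan ℝ B) rfl
  set X := Lset ι B a₀ with hXdef
  have hX : Convex ℝ X := Pool.Agent.W677.Summand.Lset_convex hB
  have hXc : IsCompact X :=
    Pool.Agent.W677.Summand.Lset_compact (fun x hx => (hι x).1 hx) ha₀ hBc
  obtain ⟨T, hTN, hT⟩ := Pool.Agent.W677.Summand.cov_of_rel hι ha₀ hN
  have h0X : (0 : Eu _) ∈ X := by
    show a₀ + ι 0 ∈ B
    simpa using ha₀
  obtain ⟨μ, hμ, hroom⟩ := cover_room hX hXc h0X T hT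
  obtain ⟨z₀, hz₀⟩ := hKi
  refine ⟨T.image (fun t => -(ι t) + (μ / (1 + μ)) • (z₀ - a₀)), Finset.card_image_le.trans hTN, ?_⟩
  intro x hx
  obtain ⟨u, hu⟩ := (hι (x - a₀)).1 (vsub_mem_vectorSpan ℝ hx ha₀)
  have hxu : x = a₀ + ι u := by rw [hu]; abel
  have huX : u ∈ X := by
    show a₀ + ι u ∈ B
    rw [← hxu]; exact hx
  obtain ⟨t, ht, hmem⟩ := hroom u huX
  refine ⟨_, Finset.mem_image_of_mem _ ht, ?_⟩
  have h1' : (u - t) + μ • ((u - t) - 0) ∈ X := interior_subset hmem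
  have h1 : a₀ + ι ((u - t) + μ • ((u - t) - 0)) ∈ K := hBK h1'
  have h2 : (0:ℝ) < 1 + μ := by linarith
  have e : x + (-(ι t) + (μ / (1 + μ)) • (z₀ - a₀)) =
      (1 - μ / (1 + μ)) • (a₀ + ι ((u - t) + μ • ((u - t) - 0))) + (μ / (1 + μ)) • z₀ := by
    have e1 : (u - t) + μ • ((u - t) - 0) = (1 + μ) • (u - t) := by module
    have e2 : (1 - μ / (1 + μ)) * (1 + μ) = 1 := by field_simp; ring
    rw [e1, map_smul, smul_add, smul_smul, e2, one_smul, hxu, map_sub]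
    module
  rw [e]
  refine hK.combo_self_interior_mem_interior h1 hz₀ ?_ (by positivity) (by ring)
  rw [sub_nonneg, div_le_one h2]
  linarith

/-- **Convex hulls.** -/
theorem hull_bound {K : Set (Eu d)} (hK : Convex ℝ K) (hKc : IsCompact K)
    (hKi : (interior K).Nonempty) (m : ℕ) (B : Fin m → Set (Eu d)) (hB : ∀ j, Convex ℝ (B j))
    (hBc : ∀ j, IsCompact (B j)) (hKB : K = convexHull ℝ (⋃ j, B j)) (N : Fin m → ℕ)
    (hN : ∀ j, ∃ T : Finset (Eu d), T.card ≤ N j ∧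
      B j ⊆ ⋃ t ∈ T, (fun x => t + x) '' intrinsicInterior ℝ (B j)) :
    ∃ T : Finset (Eu d), T.card ≤ ∑ j, N j ∧ K ⊆ ⋃ t ∈ T, (fun x => t + x) '' interior K := by
  classical
  have hBK : ∀ j, B j ⊆ K := fun j x hx => by
    rw [hKB]
    exact subset_convexHull ℝ _ (Set.mem_iUnion.2 ⟨j, hx⟩)
  choose U hU1 hU2 using fun j => subset_illum hK hKi (hB j) (hBc j) (hBK j) (N j) (hN j)
  set W : Finset (Eu d) := Finset.univ.biUnion U with hW
  have hWc : W.card ≤ ∑ j, N j :=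
    Finset.card_biUnion_le.trans (Finset.sum_le_sum fun j _ => hU1 j)
  have hill : ∀ x ∈ Set.extremePoints ℝ K, ∃ w ∈ W, x + w ∈ interior K := by
    intro x hx
    have h1 : x ∈ ⋃ j, B j := by
      have h2 : x ∈ Set.extremePoints ℝ (convexHull ℝ (⋃ j, B j)) := hKB ▸ hx
      exact extremePoints_convexHull_subset h2
    obtain ⟨j, hj⟩ := Set.mem_iUnion.1 h1
    obtain ⟨u, hu, hxu⟩ := hU2 j x hj
    exact ⟨u, Finset.mem_biUnion.2 ⟨j, Finset.mem_univ j, hu⟩, hxu⟩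
  obtain ⟨x₀, hx₀⟩ := hKc.extremePoints_nonempty (hKi.mono interior_subset)
  have hWne : W.Nonempty := by
    obtain ⟨w, hw, -⟩ := hill x₀ hx₀
    exact ⟨w, hw⟩
  obtain ⟨T, hT, hcovT⟩ := Pool.Agent.TH84.HC.cover_of_illum hK hKc W hWne (by
    intro x hx
    obtain ⟨v, hv, hdom⟩ := Pool.Agent.TH84.HC.extreme_dom hK hKc hKi hx
    obtain ⟨w, hw, hw'⟩ := hill v hv
    exact ⟨w, hw, hdom w ⟨1, one_pos, by rw [one_smul]; exact hw'⟩⟩)
  refine ⟨T, ?_, hcovT⟩
  have : T.card ≤ W.card := by exact_mod_cast hT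
  exact this.trans hWc

/-- relative coverings from coverings in coordinates -/
theorem rel_of_dim (B : Set (Eu d)) (hB : Convex ℝ B) (hBc : IsCompact B) (N : ℕ)
    (h : ∀ X : Set (Eu (finrank ℝ (vectorSpan ℝ B))), Convex ℝ X → IsCompact X →
      (interior X).Nonempty → ∃ T : Finset (Eu (finrank ℝ (vectorSpan ℝ B))), T.card ≤ N ∧
        X ⊆ ⋃ t ∈ T, (fun x => t + x) '' interior X) :
    ∃ T : Finset (Eu d), T.card ≤ N ∧
      B ⊆ ⋃ t ∈ T, (fun x => t + x) '' intrinsicInterior ℝ B := by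
  classical
  rcases B.eq_empty_or_nonempty with rfl | hne
  · exact ⟨∅, by simp, Set.empty_subset _⟩
  obtain ⟨a₀, ha₀⟩ := hne
  obtain ⟨ι, hι⟩ := Pool.Agent.W677.Summand.coords (vectorSpan ℝ B) rfl
  exact Pool.Agent.W677.Summand.rel_of_cov hι ha₀ (h (Lset ι B a₀)
    (Pool.Agent.W677.Summand.Lset_convex hB)
    (Pool.Agent.W677.Summand.Lset_compact (fun x hx => (hι x).1 hx) ha₀ hBc)
    (Pool.Agent.W677.Summand.Lset_int hι ha₀ hB))

/-- the bound `3 · 2^k · k · log (2 k² + 2 k + 1)` in dimension at most `k` -/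
theorem rel_all (B : Set (Eu d)) (hB : Convex ℝ B) (hBc : IsCompact B) (k : ℕ) (hk : 2 ≤ k)
    (hdim : finrank ℝ (vectorSpan ℝ B) ≤ k) :
    ∃ T : Finset (Eu d), T.card ≤ ⌊(3 * 2 ^ k * (k * Real.log (2 * k ^ 2 + 2 * k + 1)) : ℝ)⌋₊ ∧
      B ⊆ ⋃ t ∈ T, (fun x => t + x) '' intrinsicInterior ℝ B := by
  have hkR : (2 : ℝ) ≤ k := by exact_mod_cast hk
  refine rel_of_dim B hB hBc _ fun X hX hXc hXi => ?_
  have hF : ∀ j : ℕ, j ≤ k → (3 * 2 ^ j * (j * Real.log (2 * j ^ 2 + 2 * j + 1)) : ℝ) ≤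
      3 * 2 ^ k * (k * Real.log (2 * k ^ 2 + 2 * k + 1)) := by
    intro j hj
    have hjR : (j : ℝ) ≤ k := by exact_mod_cast hj
    have h0 : (0 : ℝ) ≤ j := by positivity
    have hl : 0 ≤ Real.log (2 * (j : ℝ) ^ 2 + 2 * j + 1) := Real.log_nonneg (by nlinarith)
    gcongr
    norm_num
  by_cases h2 : 2 ≤ finrank ℝ (vectorSpan ℝ B)
  · obtain ⟨T, hT, hcard⟩ :=
      Pool.Agent.Results.MP_eba1ef_gt.AllConvexBodies.result _ h2 X hX hXc hXi
    exact ⟨T, Nat.le_floor (hcard.trans (hF _ hdim)), hT⟩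
  · obtain ⟨T, hT, hcov⟩ := Pool.Agent.W677.Summand.body_le_two (by omega)
      (K := X) ⟨hX, hXc, hXi⟩
    refine ⟨T, Nat.le_floor ?_, hcov⟩
    have h3 : (T.card : ℝ) ≤ 2 := by
      have h4 : T.card ≤ 2 ^ 1 := hT.trans (Nat.pow_le_pow_right (by norm_num) (by omega))
      exact_mod_cast h4
    have h5 : (2 : ℝ) ≤ 3 * 2 ^ k * (k * Real.log (2 * k ^ 2 + 2 * k + 1)) := by
      have h6 : (1 : ℝ) ≤ Real.log (2 * k ^ 2 + 2 * k + 1) := by
        rw [Real.le_log_iff_exp_le (by positivity)]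
        have := Real.exp_one_lt_d9
        norm_num at this
        nlinarith
      have h7 : (1 : ℝ) ≤ 2 ^ k := one_le_pow₀ (by norm_num)
      have h8 : (2 : ℝ) ≤ k * Real.log (2 * k ^ 2 + 2 * k + 1) := by nlinarith
      nlinarith
    exact h3.trans h5

end Q172.Hadw
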