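import Mathlib
import Pool.Agent.Q172.Hadw.Fold
import Pool.Agent.TH84.NC.Pos

set_option autoImplicit false

/-!
Multiple coverings: normal position and compactness.
-/

namespace Q172.Hadw

open Module Filter Topology TopologicalSpace
open scoped Pointwise

variable {d : ℕ}

/-- normal position -/
theorem normal_position (hd : 1 ≤ d) (K : Set (Ed d)) (hK : Convex ℝ K) (hKc : IsCompact K)
    (hi : (interior K).Nonempty) :
    ∃ (A : Ed d ≃L[ℝ] Ed d) (p : Ed d),
      Metric.closedBall 0 (1 / (2 * (d : ℝ) ^ 2)) ⊆ (fun x => A (x - p)) '' K ∧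
      (fun x => A (x - p)) '' K ⊆ Metric.closedBall 0 d := by
  classical
  have hd1 : (1:ℝ) ≤ d := by exact_mod_cast hd
  have hd0 : (0:ℝ) < d := by linarith
  obtain ⟨a0, ha0⟩ := hi
  obtain ⟨ε, hε, hball⟩ := Metric.isOpen_iff.1 isOpen_interior _ ha0
  set D : Set (Ed d) := {z | ∃ a ∈ K, ∃ b ∈ K, z = a - b} with hD
  have hDe : D = (fun q : Ed d × Ed d => q.1 - q.2) '' (K ×ˢ K) := by
    ext z
    constructor
    · rintro ⟨a, ha, b, hb, rfl⟩
      exact ⟨(a, b), ⟨ha, hb⟩, rfl⟩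
    · rintro ⟨⟨a, b⟩, ⟨ha, hb⟩, rfl⟩
      exact ⟨a, ha, b, hb, rfl⟩
  have hDc : IsCompact D := by
    rw [hDe]
    exact (hKc.prod hKc).image (by fun_prop)
  have hDball : ∀ z : Ed d, ‖z‖ < ε → z ∈ D := by
    intro z hz
    refine ⟨a0 + z, interior_subset (hball ?_), a0, interior_subset ha0, by abel⟩
    rw [Metric.mem_ball, dist_eq_norm, add_sub_cancel_left]
    exact hz
  obtain ⟨A, hA1, hA2⟩ := Pool.Agent.TH84.NC.position D hDc (ε / 2) (by positivity)
    (fun x hx => hDball x (by linarith))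
  choose a ha b hb hab using hA1
  set p : Ed d := ∑ j, (1 / (2 * (d:ℝ))) • (a j + b j) with hp
  have hsumw : ∑ _j : Fin d, (1 / (d:ℝ)) = 1 := by
    simp [Finset.sum_const]
    field_simp
  have hpj : p = ∑ i, (1 / (d:ℝ)) • ((1/2 : ℝ) • a i + (1/2 : ℝ) • b i) := by
    rw [hp]
    refine Finset.sum_congr rfl fun j _ => ?_
    rw [← smul_add, smul_smul]
    congr 1
    field_simp
  have hmid : ∀ i, (1/2 : ℝ) • a i + (1/2 : ℝ) • b i ∈ K := fun i =>
    hK (ha i) (hb i) (by norm_num) (by norm_num) (by norm_num)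
  -- replacing one of the terms
  have hrep : ∀ (j : Fin d) (c : Ed d), c ∈ K →
      p + (1 / (d:ℝ)) • (c - ((1/2 : ℝ) • a j + (1/2 : ℝ) • b j)) ∈ K := by
    intro j c hc
    have h1 : p + (1 / (d:ℝ)) • (c - ((1/2 : ℝ) • a j + (1/2 : ℝ) • b j)) =
        ∑ i, (1 / (d:ℝ)) • (if i = j then c else (1/2 : ℝ) • a i + (1/2 : ℝ) • b i) := by
      have h2 : ∀ i, (1 / (d:ℝ)) • (if i = j then c else (1/2 : ℝ) • a i + (1/2 : ℝ) • b i) =
          (1 / (d:ℝ)) • ((1/2 : ℝ) • a i + (1/2 : ℝ) • b i) +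
          if i = j then (1 / (d:ℝ)) • (c - ((1/2 : ℝ) • a j + (1/2 : ℝ) • b j)) else 0 := by
        intro i
        by_cases hij : i = j
        · subst hij
          rw [if_pos rfl, if_pos rfl, ← smul_add]
          congr 1
          abel
        · rw [if_neg hij, if_neg hij, add_zero]
      rw [Finset.sum_congr rfl fun i _ => h2 i, Finset.sum_add_distrib, ← hpj]
      simp
    rw [h1]
    refine hK.sum_mem (fun j _ => by positivity) hsumw fun i _ => ?_
    by_cases hij : i = j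
    · rw [if_pos hij]; exact hc
    · rw [if_neg hij]; exact hmid i
  have hAe : ∀ j, A (a j - b j) = EuclideanSpace.single j 1 := by
    intro j
    rw [← hab j, ContinuousLinearEquiv.apply_symm_apply]
  set M : Set (Ed d) := (fun x => A (x - p)) '' K with hM
  have hMconv : Convex ℝ M := by
    rintro _ ⟨x, hx, rfl⟩ _ ⟨y, hy, rfl⟩ s t hs ht hst
    refine ⟨s • x + t • y, hK hx hy hs ht hst, ?_⟩
    simp only
    rw [← map_smul, ← map_smul, ← map_add]
    congr 1
    rw [smul_sub, smul_sub]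
    have : p = s • p + t • p := by rw [← add_smul, hst, one_smul]
    conv_lhs => rw [this]
    abel
  have hplus : ∀ j, (1 / (2 * (d:ℝ))) • (EuclideanSpace.single j 1 : Ed d) ∈ M := by
    intro j
    refine ⟨_, hrep j (a j) (ha j), ?_⟩
    simp only
    rw [add_sub_cancel_left, ← hAe j, ← map_smul]
    congr 1
    module
  have hminus : ∀ j, -((1 / (2 * (d:ℝ))) • (EuclideanSpace.single j 1 : Ed d)) ∈ M := by
    intro j
    refine ⟨_, hrep j (b j) (hb j), ?_⟩
    simp only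
    rw [add_sub_cancel_left, ← hAe j, ← map_smul, ← map_neg]
    congr 1
    module
  refine ⟨A, p, ?_, ?_⟩
  · intro y hy
    rw [mem_closedBall_zero_iff] at hy
    have hyj : ∀ j, |y j| ≤ 1 / (2 * (d:ℝ) ^ 2) := by
      intro j
      have h1 := EuclideanSpace.norm_eq y
      have h2 : ‖y j‖ ≤ ‖y‖ := PiLp.norm_apply_le y j
      rw [Real.norm_eq_abs] at h2
      exact h2.trans hy
    have h1 : y = ∑ j, (1 / (d:ℝ)) • ((d * y j) • (EuclideanSpace.single j 1 : Ed d)) := by
      have h2 : y = ∑ j, y j • (EuclideanSpace.single j 1 : Ed d) := by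
        ext i
        simp [Finset.sum_apply, Pi.single_apply]
      conv_lhs => rw [h2]
      refine Finset.sum_congr rfl fun j _ => ?_
      rw [smul_smul]
      congr 1
      field_simp
    rw [h1]
    refine hMconv.sum_mem (fun j _ => by positivity) hsumw fun j _ => ?_
    have h3 : (d * y j) • (EuclideanSpace.single j 1 : Ed d) =
        ((1 + 2 * (d:ℝ) ^ 2 * y j) / 2) • ((1 / (2 * (d:ℝ))) • (EuclideanSpace.single j 1 : Ed d)) +
        ((1 - 2 * (d:ℝ) ^ 2 * y j) / 2) • (-((1 / (2 * (d:ℝ))) • (EuclideanSpace.single j 1 : Ed d))) := by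
      rw [smul_neg, smul_smul, smul_smul, ← neg_smul, ← add_smul]
      congr 1
      field_simp
      ring
    rw [h3]
    have h4 := abs_le.1 (hyj j)
    have h5 : 2 * (d:ℝ) ^ 2 * (1 / (2 * (d:ℝ) ^ 2)) = 1 := by field_simp
    have h6 : (0:ℝ) < 2 * (d:ℝ) ^ 2 := by positivity
    refine hMconv (hplus j) (hminus j) ?_ ?_ (by ring)
    · have : -1 ≤ 2 * (d:ℝ) ^ 2 * y j := by nlinarith [h4.1]
      linarith
    · have : 2 * (d:ℝ) ^ 2 * y j ≤ 1 := by nlinarith [h4.2]
      linarith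
  · have hpK : p ∈ K := by
      rw [hpj]
      exact hK.sum_mem (fun j _ => by positivity) hsumw fun i _ => hmid i
    rintro _ ⟨x, hx, rfl⟩
    rw [mem_closedBall_zero_iff]
    have h1 : ∀ j, |(A (x - p)) j| ≤ 1 := hA2 _ ⟨x, hx, p, hpK, rfl⟩
    show ‖A (x - p)‖ ≤ d
    rw [EuclideanSpace.norm_eq, Real.sqrt_le_iff]
    refine ⟨hd0.le, ?_⟩
    calc ∑ j, ‖(A (x - p)) j‖ ^ 2 ≤ ∑ _j : Fin d, (1:ℝ) := by
          refine Finset.sum_le_sum fun j _ => ?_
          rw [Real.norm_eq_abs]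
          have := h1 j
          have h0 := abs_nonneg ((A (x - p)) j)
          nlinarith
      _ = d := by simp
      _ ≤ d ^ 2 := by nlinarith

/-- affine invariance -/
theorem kfold_affine (K : Set (Ed d)) (A : Ed d ≃L[ℝ] Ed d) (p : Ed d) (k N : ℕ)
    (h : KFold ((fun x => A (x - p)) '' K) k N) : KFold K k N := by
  classical
  obtain ⟨T, m, hm, hcov⟩ := h
  let φ : Ed d ≃ₜ Ed d := (Homeomorph.subRight p).trans A.toHomeomorph
  have hφ : (fun x => A (x - p)) = φ := by
    ext1 x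
    rfl
  have hint : ∀ x t : Ed d, (A (x - p) - t ∈ interior ((fun x => A (x - p)) '' K)) ↔
      (x - A.symm t ∈ interior K) := by
    intro x t
    rw [hφ, ← Homeomorph.image_interior]
    have e : A (x - p) - t = φ (x - A.symm t) := by
      show A (x - p) - t = A (x - A.symm t - p)
      rw [sub_right_comm, map_sub A (x - p), ContinuousLinearEquiv.apply_symm_apply]
    rw [e]
    exact φ.injective.mem_set_image
  have hinj : Set.InjOn A.symm (T : Set (Ed d)) := A.symm.injective.injOn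
  refine ⟨T.image A.symm, fun t => m (A t), ?_, fun x hx => ?_⟩
  · rw [Finset.sum_image hinj]
    simpa using hm
  · rw [Finset.sum_image hinj]
    refine (hcov _ ⟨x, hx, rfl⟩).trans (Finset.sum_le_sum fun t _ => ?_)
    by_cases hxt : A (x - p) - t ∈ interior ((fun x => A (x - p)) '' K)
    · rw [Set.indicator_of_mem hxt, Set.indicator_of_mem ((hint x t).1 hxt)]
      simp
    · rw [Set.indicator_of_notMem hxt]
      exact Nat.zero_le _

/-- the infimal distance to a convex set is convex -/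
theorem infDist_convex (L : Set (Ed d)) (hL : Convex ℝ L) (hLc : IsCompact L) (hne : L.Nonempty)
    (x y : Ed d) (a b : ℝ) (ha : 0 ≤ a) (hb : 0 ≤ b) (hab : a + b = 1) :
    Metric.infDist (a • x + b • y) L ≤ a * Metric.infDist x L + b * Metric.infDist y L := by
  obtain ⟨x', hx', hx⟩ := hLc.exists_infDist_eq_dist hne x
  obtain ⟨y', hy', hy⟩ := hLc.exists_infDist_eq_dist hne y
  calc Metric.infDist (a • x + b • y) L ≤ dist (a • x + b • y) (a • x' + b • y') :=
        Metric.infDist_le_dist_of_mem (hL hx' hy' ha hb hab)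
    _ ≤ dist (a • x) (a • x') + dist (b • y) (b • y') := dist_add_add_le _ _ _ _
    _ = a * Metric.infDist x L + b * Metric.infDist y L := by
        rw [dist_smul₀, dist_smul₀, hx, hy, Real.norm_of_nonneg ha, Real.norm_of_nonneg hb]

/-- closeness in the Hausdorff metric -/
theorem near_of_dist {r s : ℝ} (hs : 0 < s) (L M : Set (Ed d)) (hM : Convex ℝ M)
    (hMr : Metric.closedBall 0 r ⊆ M)
    (h : ∀ y ∈ L, ∃ y' ∈ M, dist y y' ≤ s * r) : ∀ y ∈ L, (1 + s)⁻¹ • y ∈ M := by
  intro y hy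
  obtain ⟨y', hy', hd⟩ := h y hy
  have h1 : s⁻¹ • (y - y') ∈ M := by
    apply hMr
    rw [mem_closedBall_zero_iff, norm_smul, norm_inv, Real.norm_of_nonneg hs.le, ← dist_eq_norm,
      inv_mul_le_iff₀ hs]
    exact hd
  have h1s : (0:ℝ) < 1 + s := by linarith
  have h2 := hM hy' h1 (a := (1 + s)⁻¹) (b := (1 + s)⁻¹ * s) (by positivity) (by positivity)
    (by field_simp)
  have h3 : (1 + s)⁻¹ • y = (1 + s)⁻¹ • y' + ((1 + s)⁻¹ * s) • s⁻¹ • (y - y') := by
    rw [smul_smul, mul_assoc, mul_inv_cancel₀ hs.ne', mul_one, ← smul_add]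
    congr 1
    abel
  rw [h3]
  exact h2

/-- the uniform statement -/
theorem uniform_kfold (hd : 1 ≤ d) (r R : ℝ) (hr : 0 < r) :
    ∃ k₀ : ℕ, ∀ L : Set (Ed d), Convex ℝ L → IsCompact L → Metric.closedBall 0 r ⊆ L →
      L ⊆ Metric.closedBall 0 R → ∀ k, k₀ ≤ k → KFold L k (k * 2 ^ d) := by
  classical
  let 𝒦 : Set (NonemptyCompacts (Ed d)) := {L | (L : Set (Ed d)) ⊆ Metric.closedBall 0 R} ∩
    ({L | ∀ (x y : Ed d) (a b : ℝ), 0 ≤ a → 0 ≤ b → a + b = 1 →
      Metric.infDist (a • x + b • y) (L : Set (Ed d)) ≤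
        a * Metric.infDist x (L : Set (Ed d)) + b * Metric.infDist y (L : Set (Ed d))} ∩
    {L | ∀ y ∈ Metric.closedBall (0 : Ed d) r, Metric.infDist y (L : Set (Ed d)) = 0})
  have hcont : ∀ x : Ed d, Continuous fun L : NonemptyCompacts (Ed d) =>
      Metric.infDist x (L : Set (Ed d)) := fun x => (Metric.lipschitz_infDist_set x).continuous
  have h𝒦 : IsCompact 𝒦 := by
    refine (NonemptyCompacts.isCompact_subsets_of_isCompact
      (isCompact_closedBall 0 R)).inter_right (IsClosed.inter ?_ ?_)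
    · simp only [Set.ofPred_forall]
      refine isClosed_iInter fun x => isClosed_iInter fun y => isClosed_iInter fun a =>
        isClosed_iInter fun b => isClosed_iInter fun _ => isClosed_iInter fun _ =>
        isClosed_iInter fun _ => ?_
      exact isClosed_le (hcont _) (((hcont x).const_mul a).add ((hcont y).const_mul b))
    · simp only [Set.ofPred_forall]
      exact isClosed_iInter fun y => isClosed_iInter fun _ => isClosed_eq (hcont y) continuous_const
  have hmem0 : ∀ (L : NonemptyCompacts (Ed d)) (x : Ed d),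
      Metric.infDist x (L : Set (Ed d)) = 0 ↔ x ∈ (L : Set (Ed d)) := fun L x =>
    (L.isCompact.isClosed.mem_iff_infDist_zero L.nonempty).symm
  have hconv : ∀ L ∈ 𝒦, Convex ℝ (L : Set (Ed d)) := by
    intro L hL x hx y hy a b ha hb hab
    have h1 := hL.2.1 x y a b ha hb hab
    rw [(hmem0 L x).2 hx, (hmem0 L y).2 hy] at h1
    rw [← hmem0]
    exact le_antisymm (by linarith) Metric.infDist_nonneg
  have hrL : ∀ L ∈ 𝒦, Metric.closedBall 0 r ⊆ (L : Set (Ed d)) := by
    intro L hL y hy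
    rw [← hmem0]
    exact hL.2.2 y hy
  have h0L : ∀ L ∈ 𝒦, (0 : Ed d) ∈ interior (L : Set (Ed d)) := by
    intro L hL
    refine mem_interior.2 ⟨Metric.ball 0 r, Metric.ball_subset_closedBall.trans (hrL L hL),
      Metric.isOpen_ball, Metric.mem_ball_self hr⟩
  have hloc : ∀ L : NonemptyCompacts (Ed d), ∃ (s : ℝ) (k₀ : ℕ), 0 < s ∧
      (L ∈ 𝒦 → ∀ M : Set (Ed d), Convex ℝ M → Near s (L : Set (Ed d)) M →
        ∀ k, k₀ ≤ k → KFold M k (k * 2 ^ d)) := by
    intro L
    by_cases hL : L ∈ 𝒦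
    · obtain ⟨s, k₀, hs, h⟩ := local_kfold hd (L : Set (Ed d)) (hconv L hL) L.isCompact (h0L L hL)
      exact ⟨s, k₀, hs, fun _ => h⟩
    · exact ⟨1, 0, one_pos, fun h => absurd h hL⟩
  choose s κ hs hκ using hloc
  obtain ⟨F, hF𝒦, hF⟩ := h𝒦.elim_nhds_subcover (fun L => Metric.ball L (s L * r)) fun L _ =>
    Metric.ball_mem_nhds L (mul_pos (hs L) hr)
  refine ⟨F.sup κ, fun M hM hMc hMr hMR k hk => ?_⟩
  have hMne : M.Nonempty := ⟨0, hMr (by simp [hr.le])⟩
  let M' : NonemptyCompacts (Ed d) := ⟨⟨M, hMc⟩, hMne⟩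
  have hM' : M' ∈ 𝒦 := by
    refine ⟨hMR, ?_, ?_⟩
    · intro x y a b ha hb hab
      exact infDist_convex M hM hMc hMne x y a b ha hb hab
    · intro y hy
      exact (hmem0 M' y).2 (hMr hy)
  obtain ⟨L, hLF, hL⟩ := Set.mem_iUnion₂.1 (hF hM')
  have hL𝒦 : L ∈ 𝒦 := hF𝒦 L hLF
  refine hκ L hL𝒦 M hM ?_ k ((Finset.le_sup hLF).trans hk)
  have hdist : Metric.hausdorffDist M (L : Set (Ed d)) < s L * r := hL
  have hfin : Metric.hausdorffEDist M (L : Set (Ed d)) ≠ ⊤ :=
    Metric.hausdorffEDist_ne_top_of_nonempty_of_bounded hMne L.nonempty hMc.isBounded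
      L.isCompact.isBounded
  constructor
  · refine near_of_dist (hs L) (L : Set (Ed d)) M hM hMr fun y hy => ?_
    obtain ⟨y', hy', h⟩ := Metric.exists_dist_lt_of_hausdorffDist_lt' hy hdist hfin
    exact ⟨y', hy', by rw [dist_comm]; exact h.le⟩
  · refine near_of_dist (hs L) M (L : Set (Ed d)) (hconv L hL𝒦) (hrL L hL𝒦) fun y hy => ?_
    obtain ⟨y', hy', h⟩ := Metric.exists_dist_lt_of_hausdorffDist_lt hy hdist hfin
    exact ⟨y', hy', h.le⟩

/-- **multiple coverings** -/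
theorem multi (d : ℕ) (hd : 1 ≤ d) : ∃ k₀ : ℕ, ∀ K : Set (Ed d), Convex ℝ K → IsCompact K →
    (interior K).Nonempty → ∀ k, k₀ ≤ k → KFold K k (k * 2 ^ d) := by
  have hd0 : (0:ℝ) < d := by exact_mod_cast hd
  obtain ⟨k₀, h⟩ := uniform_kfold hd (1 / (2 * (d : ℝ) ^ 2)) d (by positivity)
  refine ⟨k₀, fun K hK hKc hi k hk => ?_⟩
  obtain ⟨A, p, h1, h2⟩ := normal_position hd K hK hKc hi
  refine kfold_affine K A p k _ (h _ ?_ ?_ h1 h2 k hk)
  · rintro _ ⟨x, hx, rfl⟩ _ ⟨y, hy, rfl⟩ s t hs ht hst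
    refine ⟨s • x + t • y, hK hx hy hs ht hst, ?_⟩
    simp only
    rw [← map_smul, ← map_smul, ← map_add]
    congr 1
    rw [smul_sub, smul_sub]
    have : p = s • p + t • p := by rw [← add_smul, hst, one_smul]
    conv_lhs => rw [this]
    abel
  · exact hKc.image (by fun_prop)

end Q172.Hadw
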