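import Mathlib
import Pool.Agent.Q172.Hadw.Bound

set_option autoImplicit false

/-!
Numerical part.
-/

namespace Q172.Hadw

open Module
open Pool.Agent.W677.Summand (Eu)

theorem desc_ratio (n r k : ℕ) (hk : n + k = 2 * r) (hkr : k ≤ r) (j : ℕ) (hj : j ≤ k) :
    (n.descFactorial j : ℝ) ≤ 2 ^ j * r.descFactorial j *
      Real.exp (-(j * (2 * k - j + 1) / (4 * r))) := by
  induction j with
  | zero => simp
  | succ j ih =>
    have hj' : j < k := hj
    have ih' := ih hj'.le
    rw [Nat.descFactorial_succ, Nat.descFactorial_succ]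
    have hr0 : (0 : ℝ) < r := by
      have : 0 < r := by omega
      exact_mod_cast this
    have hrj : (0 : ℝ) < (r : ℝ) - j := by
      have : (j : ℝ) < r := by exact_mod_cast lt_of_lt_of_le hj' hkr
      linarith
    have hkj : (0 : ℝ) < (k : ℝ) - j := by
      have : (j : ℝ) < k := by exact_mod_cast hj'
      linarith
    have hjn : j ≤ n := by omega
    have hjr : j ≤ r := by omega
    push_cast [Nat.cast_sub hjn, Nat.cast_sub hjr]
    have hn : (n : ℝ) = 2 * r - k := by
      have : (n : ℝ) + k = 2 * r := by exact_mod_cast hk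
      linarith
    have hstep : (n : ℝ) - j ≤ 2 * (r - j) * Real.exp (-((k - j) / (2 * r))) := by
      have h1 : 1 - ((k : ℝ) - j) / (2 * (r - j)) ≤ Real.exp (-((k - j) / (2 * (r - j)))) := by
        have := Real.add_one_le_exp (-(((k : ℝ) - j) / (2 * (r - j))))
        linarith
      have h2 : Real.exp (-(((k : ℝ) - j) / (2 * (r - j)))) ≤ Real.exp (-((k - j) / (2 * r))) := by
        apply Real.exp_le_exp.2
        apply neg_le_neg
        apply div_le_div_of_nonneg_left hkj.le (by positivity)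
        have : (0 : ℝ) ≤ j := by positivity
        linarith
      calc (n : ℝ) - j = 2 * (r - j) * (1 - ((k : ℝ) - j) / (2 * (r - j))) := by
            rw [hn]; field_simp; ring
        _ ≤ _ := by
            refine mul_le_mul_of_nonneg_left (h1.trans h2) (by positivity)
    have hnj : (0 : ℝ) ≤ (n : ℝ) - j := by
      have : (j : ℝ) ≤ n := by exact_mod_cast hjn
      linarith
    calc ((n : ℝ) - j) * n.descFactorial j
        ≤ (2 * (r - j) * Real.exp (-((k - j) / (2 * r)))) *
          (2 ^ j * r.descFactorial j * Real.exp (-(j * (2 * k - j + 1) / (4 * r)))) := by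
          refine mul_le_mul hstep ih' (by positivity) (by positivity)
      _ = 2 ^ (j + 1) * (((r : ℝ) - j) * r.descFactorial j) *
          (Real.exp (-((k - j) / (2 * r))) * Real.exp (-(j * (2 * k - j + 1) / (4 * r)))) := by
          ring
      _ = _ := by
          rw [← Real.exp_add]
          congr 2
          field_simp
          ring

/-- the share of the `r`-subsets containing a `k`-subset, `n = 2 r - k` -/
theorem choose_ratio (n r k : ℕ) (hk : n + k = 2 * r) (hkr : k ≤ r) :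
    (n.choose k : ℝ) / r.choose k ≤ 2 ^ k * Real.exp (-(k * (k + 1) / (4 * r))) := by
  have h1 := desc_ratio n r k hk hkr k le_rfl
  rw [Nat.descFactorial_eq_factorial_mul_choose, Nat.descFactorial_eq_factorial_mul_choose] at h1
  push_cast at h1
  have hf : (0 : ℝ) < (k.factorial : ℝ) := by exact_mod_cast Nat.factorial_pos k
  have hc : (0 : ℝ) < r.choose k := by exact_mod_cast Nat.choose_pos hkr
  rw [div_le_iff₀ hc]
  have e : (k : ℝ) * (2 * k - k + 1) / (4 * r) = k * (k + 1) / (4 * r) := by ring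
  rw [e] at h1
  have h2 : (k.factorial : ℝ) * n.choose k ≤
      k.factorial * (2 ^ k * Real.exp (-(k * (k + 1) / (4 * r))) * r.choose k) := by
    calc (k.factorial : ℝ) * n.choose k ≤ _ := h1
      _ = _ := by ring
  exact le_of_mul_le_mul_left h2 hf

theorem exp_half : Real.exp (1 / 2) ≤ 1.65 := by
  have h1 : Real.exp (1 / 2) ^ 2 = Real.exp 1 := by
    rw [← Real.exp_nat_mul]; norm_num
  have h2 := Real.exp_one_lt_d9
  have h3 : Real.exp (1 / 2) ^ 2 ≤ (1.65 : ℝ) ^ 2 := by
    rw [h1]; norm_num at h2 ⊢; linarith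
  exact le_of_sq_le_sq h3 (by norm_num)

/-- **The bound in explicit form.** -/
theorem explicit_bound {d : ℕ} (hd : 2 ≤ d) (n r k : ℕ) (hk1 : 1 ≤ k) (hk : n + k = 2 * r)
    (K : Set (Eu d)) (hK : Convex ℝ K)
    (hKc : IsCompact K) (hKi : (interior K).Nonempty) (g : Fin n → (Eu d →ₗ[ℝ] ℝ))
    (c : Fin n → ℝ)
    (hext : ∀ x ∈ Set.extremePoints ℝ K, ∃ I : Finset (Fin n), I.card = r ∧
      LinearIndependent ℝ (fun i : I => g i) ∧ ∀ i ∈ I, g i x = c i) :
    Pool.Agent.TH84.HC.CoveredBy (1 + 1.65 * 2 ^ d * Real.exp (-(k * (k + 1) / (4 * r))) *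
      (n * Real.log 2 + ((d : ℝ) - r) * Real.log (2 * d ^ 2 + 2 * d + 1))) K := by
  classical
  obtain ⟨x₀, hx₀⟩ := hKc.extremePoints_nonempty (hKi.mono interior_subset)
  obtain ⟨I₀, hI₀, hIi₀, -⟩ := hext x₀ hx₀
  have hrn : r ≤ n := by
    rw [← hI₀]
    exact (Finset.card_le_univ I₀).trans (by simp)
  have hrd : r ≤ d := by
    have h1 := hIi₀.fintype_card_le_finrank
    rw [Fintype.card_coe, hI₀] at h1
    have h2 : finrank ℝ (Eu d →ₗ[ℝ] ℝ) = d := by
      have h3 : finrank ℝ (Module.Dual ℝ (Eu d)) = finrank ℝ (Eu d) := Subspace.dual_finrank_eq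
      have h4 : finrank ℝ (Eu d) = d := by simp
      rw [h4] at h3
      exact h3
    rw [h2] at h1
    exact h1
  have hkr : k ≤ r := by omega
  have hr0 : 0 < r := by omega
  have hdR : (2 : ℝ) ≤ d := by exact_mod_cast hd
  have hd1 : (0 : ℝ) < d - 1 := by linarith
  have hd0 : (0 : ℝ) < d := by linarith
  have hks : ((d - k : ℕ) : ℝ) = d - k := Nat.cast_sub (hkr.trans hrd)
  have hk1R : (1 : ℝ) ≤ k := by exact_mod_cast hk1
  obtain ⟨T, hT, hcov⟩ := main_bound n r k hkr K hK hKc hKi g c hext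
    (1 - 1 / d) (1 / (2 * d * (d + 1))) (by rw [sub_pos, div_lt_one hd0]; linarith)
    (by positivity) (by
      rw [hks]
      have h1 : (1 : ℝ) / (2 * d * (d + 1)) + 1 / (2 * d * (d + 1)) * (d - k) ≤ 1 / (2 * d) := by
        have : (1 : ℝ) / (2 * d * (d + 1)) + 1 / (2 * d * (d + 1)) * (d - k)
            = (d + 1 - k) / (2 * d * (d + 1)) := by field_simp; ring
        rw [this, div_le_div_iff₀ (by positivity) (by positivity)]
        nlinarith
      have h2 : (1 : ℝ) / (2 * d) < 1 / d := by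
        rw [div_lt_div_iff₀ (by positivity) hd0]; linarith
      linarith)
  refine ⟨T, hT.trans ?_, hcov⟩
  have e1 : (1 : ℝ) + 1 / (1 / (2 * d * (d + 1))) = 2 * d ^ 2 + 2 * d + 1 := by
    rw [one_div_one_div]; ring
  rw [e1]
  have e2 : (1 + 1 / (1 - 1 / (d : ℝ))) = 2 * (1 + 1 / (2 * (d - 1))) := by
    have : (1 - 1 / (d : ℝ)) = (d - 1) / d := by field_simp
    rw [this]
    field_simp
    ring
  rw [e2, mul_pow]
  have e3 : (1 + 1 / (2 * ((d : ℝ) - 1))) ^ (d - k) ≤ 1.65 := by
    have h1 : (1 + 1 / (2 * ((d : ℝ) - 1))) ≤ Real.exp (1 / (2 * (d - 1))) := by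
      have := Real.add_one_le_exp (1 / (2 * ((d : ℝ) - 1)))
      linarith
    calc (1 + 1 / (2 * ((d : ℝ) - 1))) ^ (d - k) ≤ Real.exp (1 / (2 * (d - 1))) ^ (d - k) := by
          gcongr
      _ = Real.exp (((d - k : ℕ) : ℝ) * (1 / (2 * (d - 1)))) := by rw [← Real.exp_nat_mul]
      _ ≤ Real.exp (1 / 2) := by
          apply Real.exp_le_exp.2
          rw [hks, mul_one_div, div_le_div_iff₀ (by positivity) (by norm_num)]
          linarith
      _ ≤ 1.65 := exp_half
  have e4 := choose_ratio n r k hk hkr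
  have e5 : Real.log (n.choose r) ≤ n * Real.log 2 := by
    rw [← Real.log_pow]
    refine Real.log_le_log (by exact_mod_cast Nat.choose_pos hrn) ?_
    exact_mod_cast Nat.choose_le_two_pow n r
  have e6 : ((d - r : ℕ) : ℝ) = d - r := Nat.cast_sub hrd
  rw [e6]
  have e7 : 0 ≤ Real.log (2 * (d : ℝ) ^ 2 + 2 * d + 1) := Real.log_nonneg (by nlinarith)
  have e8 : (0 : ℝ) ≤ (d : ℝ) - r := by
    have : (r : ℝ) ≤ d := by exact_mod_cast hrd
    linarith
  have e9 : 0 ≤ Real.log (n.choose r : ℝ) :=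
    Real.log_nonneg (by exact_mod_cast Nat.choose_pos hrn)
  have e10 : (2 : ℝ) ^ d = 2 ^ k * 2 ^ (d - k) := by
    rw [← pow_add]; congr 1; omega
  calc 1 + (n.choose k : ℝ) / r.choose k * (2 ^ (d - k) * (1 + 1 / (2 * ((d : ℝ) - 1))) ^ (d - k)) *
      (Real.log (n.choose r) + ((d : ℝ) - r) * Real.log (2 * d ^ 2 + 2 * d + 1))
      ≤ 1 + (2 ^ k * Real.exp (-(k * (k + 1) / (4 * r)))) * (2 ^ (d - k) * 1.65) *
        (n * Real.log 2 + ((d : ℝ) - r) * Real.log (2 * d ^ 2 + 2 * d + 1)) := by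
        gcongr
    _ = _ := by rw [e10]; ring

end Q172.Hadw
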