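import Mathlib
import Pool.Agent.Q172.Hadw.Num

set_option autoImplicit false

/-!
Polytopes with few facets, and bodies whose extreme points have few nonzero coordinates.
-/

namespace Q172.Hadw

open Module Filter Topology
open scoped RealInnerProductSpace
open Pool.Agent.W677.Summand (Eu)

variable {d : ℕ}

/-- the polyhedron given by the inequalities `⟪a j, x⟫ ≤ b j` -/
def Poly {n : ℕ} (a : Fin n → Eu d) (b : Fin n → ℝ) : Set (Eu d) := {x | ∀ j, ⟪a j, x⟫ ≤ b j}

/-- the functionals of the active constraints at an extreme point span -/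
theorem active_span {n : ℕ} (a : Fin n → Eu d) (b : Fin n → ℝ) (x : Eu d)
    (hx : x ∈ Set.extremePoints ℝ (Poly a b)) :
    Submodule.span ℝ (Set.range (fun i : {i : Fin n // ⟪a i, x⟫ = b i} => a i)) = ⊤ := by
  by_contra hcon
  set W := Submodule.span ℝ (Set.range (fun i : {i : Fin n // ⟪a i, x⟫ = b i} => a i)) with hW
  have hWo : Wᗮ ≠ ⊥ := fun h => hcon ((Submodule.orthogonal_eq_bot_iff).1 h)
  obtain ⟨v, hv, hv0⟩ := Submodule.exists_mem_ne_zero_of_ne_bot hWo
  have hva : ∀ i : Fin n, ⟪a i, x⟫ = b i → ⟪a i, v⟫ = 0 := by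
    intro i hi
    exact (Submodule.mem_orthogonal _ _).1 hv _ (Submodule.subset_span ⟨⟨i, hi⟩, rfl⟩)
  have hxP : ∀ i, ⟪a i, x⟫ ≤ b i := hx.1
  have key : ∀ u : Eu d, (∀ i : Fin n, ⟪a i, x⟫ = b i → ⟪a i, u⟫ = 0) →
      ∀ᶠ t in 𝓝 (0 : ℝ), x + t • u ∈ Poly a b := by
    intro u hu
    have h1 : ∀ i, ∀ᶠ t in 𝓝 (0 : ℝ), ⟪a i, x + t • u⟫ ≤ b i := by
      intro i
      rcases eq_or_lt_of_le (hxP i) with h | h
      · refine Eventually.of_forall fun t => ?_
        rw [inner_add_right, inner_smul_right, hu i h, mul_zero, add_zero]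
        exact h.le
      · have hc : Continuous (fun t : ℝ => ⟪a i, x + t • u⟫) := by fun_prop
        have h0 : (fun t : ℝ => ⟪a i, x + t • u⟫) 0 < b i := by simpa using h
        exact (hc.continuousAt.eventually_lt continuousAt_const h0).mono fun t ht => ht.le
    exact (eventually_all.2 h1)
  have h1 := key v hva
  have h2 := key (-v) (fun i hi => by rw [inner_neg_right, hva i hi, neg_zero])
  have h3 : ∀ᶠ t in 𝓝[>] (0:ℝ), x + t • v ∈ Poly a b ∧ x + t • (-v) ∈ Poly a b :=
    (h1.and h2).filter_mono nhdsWithin_le_nhds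
  obtain ⟨t, ⟨ht1, ht2⟩, ht⟩ := (h3.and self_mem_nhdsWithin).exists
  have ht' : (0:ℝ) < t := ht
  have h4 := (mem_extremePoints.1 hx).2 _ ht1 _ ht2 ⟨1/2, 1/2, by norm_num, by norm_num,
    by norm_num, by module⟩
  have h5 : t • v = 0 := by
    have : x + t • v = x + 0 := by rw [h4.1, add_zero]
    exact add_left_cancel this
  rcases smul_eq_zero.1 h5 with h6 | h6
  · exact ht'.ne' h6
  · exact hv0 h6

/-- an extreme point of a polyhedron lies on `d` independent ones of the hyperplanes -/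
theorem poly_ext {n : ℕ} (a : Fin n → Eu d) (b : Fin n → ℝ) (x : Eu d)
    (hx : x ∈ Set.extremePoints ℝ (Poly a b)) :
    ∃ I : Finset (Fin n), I.card = d ∧
      LinearIndependent ℝ (fun i : I => (innerₗ (Eu d) (a i) : Eu d →ₗ[ℝ] ℝ)) ∧
      ∀ i ∈ I, innerₗ (Eu d) (a i) x = b i := by
  classical
  have h1 := active_span a b x hx
  obtain ⟨κ, f, hf, hsp, hli⟩ := exists_linearIndependent' (K := ℝ)
    (fun i : {i : Fin n // ⟪a i, x⟫ = b i} => a i)
  rw [h1] at hsp
  have : Finite κ := Finite.of_injective f hf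
  have : Fintype κ := Fintype.ofFinite κ
  have hcard : Fintype.card κ = d := by
    have h2 := finrank_span_eq_card hli
    rw [hsp, finrank_top] at h2
    rw [← h2]; simp
  set F : κ → Fin n := fun j => (f j : Fin n) with hF
  have hFi : Function.Injective F := fun i j h => hf (Subtype.ext h)
  refine ⟨Finset.univ.image F, ?_, ?_, ?_⟩
  · rw [Finset.card_image_of_injective _ hFi, Finset.card_univ, hcard]
  · have h3 : LinearIndependent ℝ (fun i : (Finset.univ.image F : Finset (Fin n)) => a i) := by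
      have h4 : ∀ i : (Finset.univ.image F : Finset (Fin n)), ∃ j : κ, F j = i := by
        rintro ⟨i, hi⟩
        obtain ⟨j, -, hj⟩ := Finset.mem_image.1 hi
        exact ⟨j, hj⟩
      choose e he using h4
      have h5 : LinearIndependent ℝ (((fun i : {i : Fin n // ⟪a i, x⟫ = b i} => a i) ∘ f) ∘ e) := by
        refine hli.comp e ?_
        intro i j hij
        apply Subtype.ext
        rw [← he i, ← he j, hij]
      have h6 : (((fun i : {i : Fin n // ⟪a i, x⟫ = b i} => a i) ∘ f) ∘ e) =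
          (fun i : (Finset.univ.image F : Finset (Fin n)) => a i) := by
        funext i
        show a (F (e i)) = a i
        rw [he i]
      rw [h6] at h5
      exact h5
    have h7 : LinearMap.ker (innerₗ (Eu d)) = ⊥ := by
      rw [LinearMap.ker_eq_bot']
      intro u hu
      have : innerₗ (Eu d) u u = 0 := by rw [hu]; rfl
      rw [innerₗ_apply_apply] at this
      exact inner_self_eq_zero.1 this
    exact h3.map' (innerₗ (Eu d)) h7
  · intro i hi
    obtain ⟨j, -, rfl⟩ := Finset.mem_image.1 hi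
    exact (f j).2

/-- **Polytopes with few facets.** -/
theorem poly_cover (hd : 2 ≤ d) (n k : ℕ) (a : Fin n → Eu d) (b : Fin n → ℝ)
    (hK : Convex ℝ (Poly a b)) (hKc : IsCompact (Poly a b)) (hKi : (interior (Poly a b)).Nonempty)
    (hn : n + k ≤ 2 * d) (hk : 4 * d * Real.log (3 * d) ≤ k * (k + 1)) :
    ∃ T : Finset (Eu d), T.card < 2 ^ d ∧
      Poly a b ⊆ ⋃ t ∈ T, (fun x => t + x) '' interior (Poly a b) := by
  have hdR : (2 : ℝ) ≤ d := by exact_mod_cast hd
  obtain ⟨x₀, hx₀⟩ := hKc.extremePoints_nonempty (hKi.mono interior_subset)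
  obtain ⟨I₀, hI₀, -⟩ := poly_ext a b x₀ hx₀
  have hdn : d ≤ n := by
    rw [← hI₀]
    exact (Finset.card_le_univ I₀).trans (by simp)
  obtain ⟨k', hk'⟩ : ∃ k', n + k' = 2 * d := ⟨2 * d - n, by omega⟩
  have hkk : k ≤ k' := by omega
  have hkd : k' ≤ d := by omega
  have hlog3 : 1 < Real.log (3 * d) := by
    rw [Real.lt_log_iff_exp_lt (by positivity)]
    have := Real.exp_one_lt_d9
    norm_num at this
    linarith
  have hkR : (k : ℝ) ≤ k' := by exact_mod_cast hkk
  have hkdR : (k' : ℝ) ≤ d := by exact_mod_cast hkd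
  have hk' : 4 * d * Real.log (3 * d) ≤ k' * ((k' : ℝ) + 1) := by
    refine hk.trans ?_
    have : (0 : ℝ) ≤ k := by positivity
    nlinarith
  have hd3 : 3 < d := by
    have h1 : (4 : ℝ) * d < d * (d + 1) := by nlinarith
    have h2 : (3 : ℝ) < d := by nlinarith
    exact_mod_cast h2
  have hk1 : 1 ≤ k' := by
    by_contra hcon
    have : k' = 0 := by omega
    rw [this] at hk'
    push_cast at hk'
    nlinarith
  obtain ⟨T, hT, hcov⟩ := explicit_bound hd n d k' hk1 (by omega) (Poly a b) hK hKc hKi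
    (fun i => innerₗ (Eu d) (a i)) b (poly_ext a b)
  refine ⟨T, ?_, hcov⟩
  have hnR : (n : ℝ) ≤ 2 * d := by
    have : (n : ℝ) + k' = 2 * d := by exact_mod_cast (by omega : n + k' = 2 * d)
    have h0 : (0 : ℝ) ≤ k' := by positivity
    linarith
  have hexp : Real.exp (-(k' * (k' + 1) / (4 * d))) ≤ 1 / (3 * d) := by
    have h1 : -((k' : ℝ) * (k' + 1) / (4 * d)) ≤ -Real.log (3 * d) := by
      apply neg_le_neg
      rw [le_div_iff₀ (by positivity)]
      linarith
    calc Real.exp (-(k' * (k' + 1) / (4 * d))) ≤ Real.exp (-Real.log (3 * d)) :=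
          Real.exp_le_exp.2 h1
      _ = 1 / (3 * d) := by rw [Real.exp_neg, Real.exp_log (by positivity), one_div]
  have hlog2 := Real.log_two_lt_d9
  have hlog2' := Real.log_two_gt_d9
  have h2 : (T.card : ℝ) < 2 ^ d := by
    refine lt_of_le_of_lt hT ?_
    have h3 : (n : ℝ) * Real.log 2 + ((d : ℝ) - d) * Real.log (2 * d ^ 2 + 2 * d + 1)
        = n * Real.log 2 := by ring
    rw [h3]
    have h4 : (1.65 : ℝ) * 2 ^ d * Real.exp (-(k' * (k' + 1) / (4 * d))) * (n * Real.log 2) ≤
        1.65 * 2 ^ d * (1 / (3 * d)) * (2 * d * 0.6931471808) := by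
      gcongr
    have h5 : (1.65 : ℝ) * 2 ^ d * (1 / (3 * d)) * (2 * d * 0.6931471808) =
        0.76246189888 * 2 ^ d := by
      field_simp
      norm_num
    have h6 : (16 : ℝ) ≤ 2 ^ d := by
      calc (16 : ℝ) = 2 ^ 4 := by norm_num
        _ ≤ 2 ^ d := pow_le_pow_right₀ (by norm_num) hd3
    rw [h5] at h4
    linarith
  exact_mod_cast h2

/-- **Bodies whose extreme points have few nonzero coordinates.** -/
theorem sparse_cover (hd : 2 ≤ d) (t : ℕ) (K : Set (Eu d)) (hK : Convex ℝ K)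
    (hKc : IsCompact K) (hKi : (interior K).Nonempty) (β : Basis (Fin d) ℝ (Eu d))
    (ht : 2 * t ≤ d) (hk : 8 * (d * Real.log d) ≤ ((d : ℝ) - 2 * t) ^ 2)
    (hext : ∀ x ∈ Set.extremePoints ℝ K, {i | β.repr x i ≠ 0}.ncard ≤ t) :
    ∃ T : Finset (Eu d), T.card < 2 ^ d ∧ K ⊆ ⋃ t ∈ T, (fun x => t + x) '' interior K := by
  classical
  have hdR : (2 : ℝ) ≤ d := by exact_mod_cast hd
  have hd0 : (0 : ℝ) < d := by linarith
  obtain ⟨k, hk2⟩ : ∃ k, k + 2 * t = d := ⟨d - 2 * t, by omega⟩
  have hkR : (k : ℝ) = d - 2 * t := by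
    have : (k : ℝ) + 2 * t = d := by exact_mod_cast hk2
    linarith
  have hlogd : 0 < Real.log d := Real.log_pos (by linarith)
  have hk1 : 1 ≤ k := by
    by_contra hcon
    have h0 : k = 0 := by omega
    rw [h0] at hkR
    rw [← hkR] at hk
    push_cast at hk
    nlinarith [mul_pos hd0 hlogd]
  rw [← hkR] at hk
  have hkd : (k : ℝ) ≤ d := by
    have : (0 : ℝ) ≤ t := by positivity
    rw [hkR]; linarith
  have hli : LinearIndependent ℝ (fun i : Fin d => (β.coord i : Eu d →ₗ[ℝ] ℝ)) := by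
    have := β.dualBasis.linearIndependent
    rwa [Basis.coe_dualBasis] at this
  obtain ⟨T, hT, hcov⟩ := explicit_bound hd d (d - t) k hk1 (by omega) K hK hKc hKi
    (fun i => β.coord i) (fun _ => 0) (by
      intro x hx
      have h1 := hext x hx
      set Z : Finset (Fin d) := Finset.univ.filter (fun i => β.repr x i = 0) with hZ
      have h2 : d - t ≤ Z.card := by
        have h3 : (Finset.univ.filter (fun i => ¬ β.repr x i = 0)).card ≤ t := by
          rw [← Set.ncard_coe_finset]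
          simpa using h1
        have h4 := Finset.card_filter_add_card_filter_not (s := (Finset.univ : Finset (Fin d)))
          (fun i => β.repr x i = 0)
        rw [Finset.card_univ, Fintype.card_fin] at h4
        have h5 : Z.card = (Finset.univ.filter (fun i => β.repr x i = 0)).card := rfl
        omega
      obtain ⟨I, hI, hIc⟩ := Finset.exists_subset_card_eq h2
      refine ⟨I, hIc, ?_, ?_⟩
      · exact hli.comp (fun i : I => (i : Fin d)) Subtype.val_injective
      · intro i hi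
        exact (Finset.mem_filter.1 (hI hi)).2)
  refine ⟨T, ?_, hcov⟩
  have hr : ((d - t : ℕ) : ℝ) = d - t := Nat.cast_sub (by omega)
  rw [hr] at hT
  have ht2 : (t : ℝ) ≤ d / 2 := by
    have : (2 : ℝ) * t ≤ d := by exact_mod_cast ht
    linarith
  have ht0 : (0 : ℝ) ≤ t := by positivity
  have hrpos : (0 : ℝ) < d - t := by linarith
  have hexp : Real.exp (-(k * (k + 1) / (4 * ((d : ℝ) - t)))) ≤ 1 / d ^ 2 := by
    have h1 : -((k : ℝ) * (k + 1) / (4 * ((d : ℝ) - t))) ≤ -(2 * Real.log d) := by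
      apply neg_le_neg
      rw [le_div_iff₀ (by positivity)]
      have h2 : 2 * Real.log d * (4 * ((d : ℝ) - t)) ≤ 8 * (d * Real.log d) := by
        nlinarith [mul_nonneg ht0 hlogd.le]
      have h3 : (0 : ℝ) ≤ k := by positivity
      nlinarith
    calc Real.exp (-(k * (k + 1) / (4 * ((d : ℝ) - t)))) ≤ Real.exp (-(2 * Real.log d)) :=
          Real.exp_le_exp.2 h1
      _ = 1 / d ^ 2 := by
          have h2 : 2 * Real.log d = Real.log (d ^ 2) := by
            rw [Real.log_pow]; norm_num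
          rw [h2, Real.exp_neg, Real.exp_log (by positivity), one_div]
  -- `d ≥ 8 log d`
  have hlogd8 : Real.log d ≤ d / 8 := by
    have h1 : 8 * (d * Real.log d) ≤ d ^ 2 := by
      refine hk.trans ?_
      have h3 : (0 : ℝ) ≤ k := by positivity
      nlinarith
    have h2 : d * (8 * Real.log d) ≤ d * d := by nlinarith
    have h3 := le_of_mul_le_mul_left h2 hd0
    linarith
  have hlog2 := Real.log_two_lt_d9
  have hlog2' := Real.log_two_gt_d9
  have hlog2d : Real.log 2 ≤ Real.log d := Real.log_le_log (by norm_num) hdR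
  have hd55 : (5.5 : ℝ) < d := by
    norm_num at hlog2' ⊢
    linarith
  have hd6 : 6 ≤ d := by
    by_contra hcon
    have : d ≤ 5 := by omega
    have h1 : (d : ℝ) ≤ 5 := by exact_mod_cast this
    norm_num at hd55
    linarith
  have hd6R : (6 : ℝ) ≤ d := by exact_mod_cast hd6
  have hlogq : Real.log (2 * (d : ℝ) ^ 2 + 2 * d + 1) ≤ 3 * Real.log 2 + 2 * Real.log d := by
    have h1 : 2 * (d : ℝ) ^ 2 + 2 * d + 1 ≤ 2 ^ 3 * d ^ 2 := by nlinarith
    calc Real.log (2 * (d : ℝ) ^ 2 + 2 * d + 1) ≤ Real.log (2 ^ 3 * d ^ 2) :=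
          Real.log_le_log (by positivity) h1
      _ = 3 * Real.log 2 + 2 * Real.log d := by
          rw [Real.log_mul (by positivity) (by positivity), Real.log_pow, Real.log_pow]
          norm_num
  have hlogq0 : 0 ≤ Real.log (2 * (d : ℝ) ^ 2 + 2 * d + 1) := Real.log_nonneg (by nlinarith)
  have h2 : (T.card : ℝ) < 2 ^ d := by
    refine lt_of_le_of_lt hT ?_
    have h3 : (d : ℝ) * Real.log 2 + ((d : ℝ) - (d - t)) * Real.log (2 * d ^ 2 + 2 * d + 1)
        ≤ d * (2.5 * Real.log 2 + d / 8) := by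
      have e : (d : ℝ) - (d - t) = t := by ring
      rw [e]
      have h4 : (t : ℝ) * Real.log (2 * (d : ℝ) ^ 2 + 2 * d + 1) ≤
          d / 2 * (3 * Real.log 2 + 2 * Real.log d) :=
        mul_le_mul ht2 hlogq hlogq0 (by positivity)
      nlinarith
    have h0 : 0 ≤ (d : ℝ) * Real.log 2 + ((d : ℝ) - (d - t)) *
        Real.log (2 * d ^ 2 + 2 * d + 1) := by
      have e : (d : ℝ) - (d - t) = t := by ring
      rw [e]
      have : 0 ≤ Real.log 2 := by norm_num at hlog2' ⊢; linarith
      positivity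
    have h4 : (1.65 : ℝ) * 2 ^ d * Real.exp (-(k * (k + 1) / (4 * ((d : ℝ) - t)))) *
        ((d : ℝ) * Real.log 2 + ((d : ℝ) - (d - t)) * Real.log (2 * d ^ 2 + 2 * d + 1)) ≤
        1.65 * 2 ^ d * (1 / d ^ 2) * (d * (2.5 * Real.log 2 + d / 8)) := by
      gcongr
    have h5 : (1.65 : ℝ) * 2 ^ d * (1 / d ^ 2) * (d * (2.5 * Real.log 2 + d / 8)) =
        2 ^ d * (1.65 * (2.5 * Real.log 2) / d + 1.65 / 8) := by
      field_simp
    have h6 : 1.65 * (2.5 * Real.log 2) / (d : ℝ) ≤ 0.48 := by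
      rw [div_le_iff₀ hd0]
      norm_num at hlog2 ⊢
      linarith
    have h7 : (64 : ℝ) ≤ 2 ^ d := by
      calc (64 : ℝ) = 2 ^ 6 := by norm_num
        _ ≤ 2 ^ d := pow_le_pow_right₀ (by norm_num) hd6
    rw [h5] at h4
    have h8 : (2 : ℝ) ^ d * (1.65 * (2.5 * Real.log 2) / d + 1.65 / 8) ≤ 2 ^ d * 0.7 := by
      refine mul_le_mul_of_nonneg_left ?_ (by positivity)
      norm_num at h6 ⊢
      linarith
    nlinarith
  exact_mod_cast h2

end Q172.Hadw
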