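import Mathlib
import Pool.Agent.Q172.Hadw.Trunc

set_option autoImplicit false

/-!
Truncations by half-spaces, and intersections of `d + 1` slabs.
-/

namespace Q172.Hadw

open Module Filter Topology
open scoped RealInnerProductSpace

variable {d : ℕ}

/-- pairwise disjoint truncations by half-spaces -/
theorem half_cover {N : ℕ} (K : Set (Ed d)) (hK : Convex ℝ K) (hKc : IsCompact K)
    (hKi : (interior K).Nonempty) (β : Basis (Fin d) ℝ (Ed d)) (o : Ed d)
    (g : Fin N → (Ed d →ₗ[ℝ] ℝ)) (c : Fin N → ℝ)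
    (hKD : K = Par β o ∩ {x | ∀ k, g k x ≤ c k})
    (hdisj : ∀ x ∈ Par β o, ∀ k l, k ≠ l → g k x < c k ∨ g l x < c l) :
    ∃ T : Finset (Ed d), T.card ≤ 2 ^ d ∧ K ⊆ ⋃ t ∈ T, (fun x => t + x) '' interior K := by
  classical
  have hint : ∀ k x, g k x < c k → x ∈ interior {x : Ed d | g k x ≤ c k} := by
    intro k x hx
    have h1 : IsOpen {x : Ed d | g k x < c k} :=
      isOpen_lt (LinearMap.continuous_of_finiteDimensional (g k)) continuous_const
    have h2 : {x : Ed d | g k x < c k} ⊆ {x : Ed d | g k x ≤ c k} :=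
      fun y (hy : g k y < c k) => (hy.le : g k y ≤ c k)
    exact interior_maximal h2 h1 hx
  refine trunc_cover K hK hKc hKi β o (fun k => {x : Ed d | g k x ≤ c k})
    (fun k i => if 0 ≤ g k (β i) then 1 else -1) ?_ ?_ ?_ ?_ ?_
  · intro k i
    by_cases h : 0 ≤ g k (β i)
    · left; rw [if_pos h]
    · right; rw [if_neg h]
  · intro k
    exact convex_halfSpace_le (g k).isLinear (c k)
  · intro k x hx z hz
    show g k z ≤ c k
    refine le_trans ?_ hx
    have e : ∀ y : Ed d, g k y = g k o + ∑ i, crd β o y i * g k (β i) := by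
      intro y
      have h1 : y = o + ∑ i, crd β o y i • β i := by
        unfold crd
        rw [β.sum_repr (y - o)]; abel
      conv_lhs => rw [h1]
      rw [map_add, map_sum]
      congr 1
      exact Finset.sum_congr rfl fun i _ => by rw [map_smul, smul_eq_mul]
    rw [e z, e x]
    refine add_le_add le_rfl (Finset.sum_le_sum fun i _ => ?_)
    have h2 : (if 0 ≤ g k (β i) then (1 : ℝ) else -1) * crd β o z i ≤
        (if 0 ≤ g k (β i) then (1 : ℝ) else -1) * crd β o x i := hz i
    by_cases h : 0 ≤ g k (β i)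
    · rw [if_pos h] at h2
      refine mul_le_mul_of_nonneg_right ?_ h
      linarith
    · rw [if_neg h] at h2
      refine mul_le_mul_of_nonpos_right ?_ (not_le.1 h).le
      linarith
  · rw [hKD]
    congr 1
    ext x
    simp
  · intro x hx k l hkl
    rcases hdisj x hx k l hkl with h | h
    · exact Or.inl (hint k x h)
    · exact Or.inr (hint l x h)

/-- the intersection of slabs -/
def Slabs {n : ℕ} (a : Fin n → Ed d) (l r : Fin n → ℝ) : Set (Ed d) :=
  {x | ∀ j, l j ≤ ⟪a j, x⟫ ∧ ⟪a j, x⟫ ≤ r j}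

/-- **Intersections of `d + 1` slabs.** -/
theorem slabs_cover (a : Fin (d + 1) → Ed d) (l r : Fin (d + 1) → ℝ) (ha : ∀ j, a j ≠ 0)
    (hK : Convex ℝ (Slabs a l r)) (hKc : IsCompact (Slabs a l r))
    (hKi : (interior (Slabs a l r)).Nonempty) :
    ∃ T : Finset (Ed d), T.card ≤ 2 ^ d ∧
      Slabs a l r ⊆ ⋃ t ∈ T, (fun x => t + x) '' interior (Slabs a l r) := by
  classical
  obtain ⟨p, hp⟩ := hKi
  -- the slabs have positive width
  have hlr : ∀ j, l j < r j := by
    intro j
    have h1 : ∀ w : Ed d, ∀ᶠ t in 𝓝[>] (0:ℝ), p + t • w ∈ Slabs a l r := by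
      intro w
      have hc : Continuous (fun t : ℝ => p + t • w) := by fun_prop
      have h0 : (fun t : ℝ => p + t • w) 0 ∈ interior (Slabs a l r) := by simpa using hp
      exact ((hc.continuousAt.eventually (isOpen_interior.mem_nhds h0)).filter_mono
        nhdsWithin_le_nhds).mono fun t ht => interior_subset ht
    obtain ⟨t, ⟨ht1, ht2⟩, ht⟩ := (((h1 (a j)).and (h1 (-a j))).and self_mem_nhdsWithin).exists
    have ht' : (0:ℝ) < t := ht
    have e1 := (ht1 j).2
    have e2 := (ht2 j).1
    rw [inner_add_right, inner_smul_right, real_inner_self_eq_norm_sq] at e1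
    rw [inner_add_right, inner_smul_right, inner_neg_right, real_inner_self_eq_norm_sq] at e2
    have h3 : 0 < ‖a j‖ ^ 2 := by
      have := norm_pos_iff.2 (ha j)
      positivity
    nlinarith [mul_pos ht' h3]
  -- the normals span
  have hspan : Submodule.span ℝ (Set.range a) = ⊤ := by
    by_contra hcon
    have hWo : (Submodule.span ℝ (Set.range a))ᗮ ≠ ⊥ :=
      fun h => hcon ((Submodule.orthogonal_eq_bot_iff).1 h)
    obtain ⟨v, hv, hv0⟩ := Submodule.exists_mem_ne_zero_of_ne_bot hWo
    have hva : ∀ j, ⟪a j, v⟫ = 0 := fun j =>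
      (Submodule.mem_orthogonal _ _).1 hv _ (Submodule.subset_span ⟨j, rfl⟩)
    have hmem : ∀ t : ℝ, p + t • v ∈ Slabs a l r := by
      intro t j
      rw [inner_add_right, inner_smul_right, hva j, mul_zero, add_zero]
      exact (interior_subset hp) j
    obtain ⟨R, hR⟩ := hKc.isBounded.exists_norm_le
    have hvn : 0 < ‖v‖ := norm_pos_iff.2 hv0
    have h1 := hR _ (hmem ((R + ‖p‖ + 1) / ‖v‖))
    have h2 : ‖((R + ‖p‖ + 1) / ‖v‖) • v‖ ≤ ‖p + ((R + ‖p‖ + 1) / ‖v‖) • v‖ + ‖p‖ := by
      have := norm_sub_le (p + ((R + ‖p‖ + 1) / ‖v‖) • v) p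
      rwa [add_sub_cancel_left] at this
    have hR0 : 0 ≤ R := (norm_nonneg _).trans h1
    rw [norm_smul, Real.norm_of_nonneg (by positivity), div_mul_cancel₀ _ hvn.ne'] at h2
    linarith
  -- `d` independent slabs
  obtain ⟨κ, f, hf, hsp, hli⟩ := exists_linearIndependent' (K := ℝ) a
  rw [hspan] at hsp
  have : Finite κ := Finite.of_injective f hf
  have : Fintype κ := Fintype.ofFinite κ
  have hcard : Fintype.card κ = d := by
    have h2 := finrank_span_eq_card hli
    rw [hsp, finrank_top] at h2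
    rw [← h2]; simp
  let e : Fin d ≃ κ := (finCongr hcard.symm).trans (Fintype.equivFin κ).symm
  set F : Fin d → Fin (d + 1) := fun i => f (e i) with hF
  have hFi : Function.Injective F := hf.comp e.injective
  -- the remaining slab
  obtain ⟨j₀, hj₀⟩ : ∃ j₀, ((Finset.univ.image F)ᶜ : Finset (Fin (d + 1))) = {j₀} := by
    apply Finset.card_eq_one.1
    rw [Finset.card_compl, Finset.card_image_of_injective _ hFi, Finset.card_univ]
    simp
  have hcase : ∀ j, j = j₀ ∨ ∃ i, F i = j := by
    intro j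
    by_cases h : j ∈ Finset.univ.image F
    · obtain ⟨i, -, hi⟩ := Finset.mem_image.1 h
      exact Or.inr ⟨i, hi⟩
    · left
      have : j ∈ ((Finset.univ.image F)ᶜ : Finset (Fin (d + 1))) := Finset.mem_compl.2 h
      rw [hj₀] at this
      exact Finset.mem_singleton.1 this
  -- coordinates
  let Φ : Ed d →ₗ[ℝ] (Fin d → ℝ) := LinearMap.pi fun i =>
    (2 / (r (F i) - l (F i))) • (innerₗ (Ed d) (a (F i)))
  have hΦ : ∀ x i, Φ x i = 2 / (r (F i) - l (F i)) * ⟪a (F i), x⟫ := fun x i => rfl
  have hΦinj : Function.Injective Φ := by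
    rw [← LinearMap.ker_eq_bot, LinearMap.ker_eq_bot']
    intro x hx
    have h1 : ∀ i, ⟪a (F i), x⟫ = 0 := by
      intro i
      have h2 := congrFun hx i
      rw [hΦ] at h2
      rcases mul_eq_zero.1 h2 with h3 | h3
      · have := hlr (F i)
        rcases div_eq_zero_iff.1 h3 with h4 | h4
        · norm_num at h4
        · linarith
      · exact h3
    have h2 : x ∈ (Submodule.span ℝ (Set.range (a ∘ f)))ᗮ := by
      rw [Submodule.mem_orthogonal]
      intro u hu
      induction hu using Submodule.span_induction with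
      | mem u hu =>
        obtain ⟨j, rfl⟩ := hu
        have h3 := h1 (e.symm j)
        simp only [hF, Equiv.apply_symm_apply] at h3
        exact h3
      | zero => exact inner_zero_left _
      | add u v _ _ h3 h4 => rw [inner_add_left, h3, h4, add_zero]
      | smul c u _ h3 => rw [inner_smul_left, h3, mul_zero]
    rw [hsp, Submodule.top_orthogonal_eq_bot] at h2
    exact (Submodule.mem_bot ℝ).1 h2
  let Ψ : Ed d ≃ₗ[ℝ] (Fin d → ℝ) := LinearMap.linearEquivOfInjective Φ hΦinj (by simp)
  have hΨ : ∀ x, Ψ x = Φ x := fun x => rfl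
  let β : Basis (Fin d) ℝ (Ed d) := Basis.ofEquivFun Ψ
  let o : Ed d := Ψ.symm (fun i => (l (F i) + r (F i)) / (r (F i) - l (F i)))
  have hcrd : ∀ x i, crd β o x i =
      (2 * ⟪a (F i), x⟫ - l (F i) - r (F i)) / (r (F i) - l (F i)) := by
    intro x i
    have h1 : crd β o x i = Ψ (x - o) i := rfl
    rw [h1, map_sub, Pi.sub_apply, hΨ x, hΦ]
    have h2 : Ψ o = fun i => (l (F i) + r (F i)) / (r (F i) - l (F i)) := by
      simp only [o, LinearEquiv.apply_symm_apply]
    rw [h2]
    have := hlr (F i)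
    have h3 : r (F i) - l (F i) ≠ 0 := by
      have : 0 < r (F i) - l (F i) := by linarith
      exact this.ne'
    field_simp
    ring
  have hpar : ∀ x, x ∈ Par β o ↔ ∀ i, l (F i) ≤ ⟪a (F i), x⟫ ∧ ⟪a (F i), x⟫ ≤ r (F i) := by
    intro x
    refine forall_congr' fun i => ?_
    rw [hcrd, abs_le]
    have h3 : 0 < r (F i) - l (F i) := by linarith [hlr (F i)]
    rw [le_div_iff₀ h3, div_le_iff₀ h3]
    constructor
    · rintro ⟨h4, h5⟩
      constructor <;> linarith
    · rintro ⟨h4, h5⟩
      constructor <;> linarith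
  refine half_cover (N := 2) (Slabs a l r) hK hKc ⟨p, hp⟩ β o
    ![innerₗ (Ed d) (a j₀), -(innerₗ (Ed d) (a j₀))] ![r j₀, -(l j₀)] ?_ ?_
  · ext x
    simp only [Set.mem_inter_iff, hpar, Set.mem_ofPred_eq, Fin.forall_fin_two, Matrix.cons_val_zero,
      Matrix.cons_val_one]
    constructor
    · intro hx
      refine ⟨fun i => hx (F i), (hx j₀).2, ?_⟩
      have := (hx j₀).1
      simp only [LinearMap.neg_apply, innerₗ_apply_apply]
      linarith
    · rintro ⟨h1, h2, h3⟩ j
      rcases hcase j with rfl | ⟨i, rfl⟩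
      · refine ⟨?_, h2⟩
        simp only [LinearMap.neg_apply, innerₗ_apply_apply] at h3
        linarith
      · exact h1 i
  · intro x _ k m hkm
    have h1 := hlr j₀
    have h2 : ⟪a j₀, x⟫ < r j₀ ∨ -⟪a j₀, x⟫ < -(l j₀) := by
      by_cases h : ⟪a j₀, x⟫ < r j₀
      · exact Or.inl h
      · right
        push Not at h
        linarith
    have hk : k = 0 ∨ k = 1 := by
      rcases k with ⟨k, hk⟩
      interval_cases k
      · exact Or.inl rfl
      · exact Or.inr rfl
    have hm : m = 0 ∨ m = 1 := by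
      rcases m with ⟨m, hm⟩
      interval_cases m
      · exact Or.inl rfl
      · exact Or.inr rfl
    rcases hk with rfl | rfl <;> rcases hm with rfl | rfl
    · exact absurd rfl hkm
    · exact h2
    · exact h2.symm
    · exact absurd rfl hkm

end Q172.Hadw
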