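import Mathlib
import Pool.Agent.Q172.Hadw.Norm

set_option autoImplicit false

/-!
Multiple coverings: stability, families, and the lower bound for parallelotopes.
-/

namespace Q172.Hadw

open Module Filter Topology TopologicalSpace
open scoped Pointwise

variable {d : ℕ}

/-- `P` is a parallelotope -/
def IsPar (P : Set (Ed d)) : Prop :=
  ∃ (p : Ed d) (v : Fin d → Ed d), LinearIndependent ℝ v ∧
    P = {x | ∃ a : Fin d → ℝ, (∀ i, 0 ≤ a i ∧ a i ≤ 1) ∧ x = p + ∑ i, a i • v i}

theorem IsPar.image {P : Set (Ed d)} (hP : IsPar P) (A : Ed d ≃L[ℝ] Ed d) (q : Ed d) :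
    IsPar ((fun x => A x + q) '' P) := by
  obtain ⟨p, v, hv, rfl⟩ := hP
  refine ⟨A p + q, fun i => A (v i), hv.map' (A : Ed d →ₗ[ℝ] Ed d)
    (LinearMap.ker_eq_bot.2 A.injective), ?_⟩
  ext x
  constructor
  · rintro ⟨_, ⟨a, ha, rfl⟩, rfl⟩
    refine ⟨a, ha, ?_⟩
    simp only [map_add, map_sum, map_smul]
    abel
  · rintro ⟨a, ha, rfl⟩
    refine ⟨_, ⟨a, ha, rfl⟩, ?_⟩
    simp only [map_add, map_sum, map_smul]
    abel

theorem IsPar.convex {P : Set (Ed d)} (hP : IsPar P) : Convex ℝ P := by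
  obtain ⟨p, v, -, rfl⟩ := hP
  rintro _ ⟨a, ha, rfl⟩ _ ⟨b, hb, rfl⟩ s t hs ht hst
  refine ⟨fun i => s * a i + t * b i, fun i => ⟨?_, ?_⟩, ?_⟩
  · have := (ha i).1; have := (hb i).1; positivity
  · have h1 := mul_le_mul_of_nonneg_left (ha i).2 hs
    have h2 := mul_le_mul_of_nonneg_left (hb i).2 ht
    linarith
  · have h : p = s • p + t • p := by rw [← add_smul, hst, one_smul]
    conv_rhs => rw [h]
    simp only [smul_add, Finset.smul_sum, add_smul, Finset.sum_add_distrib, smul_smul]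
    abel

/-- the local statement, with stability -/
theorem local_stab (hd : 1 ≤ d) (L : Set (Ed d)) (hL : Convex ℝ L) (hLc : IsCompact L)
    (h0 : (0 : Ed d) ∈ interior L) (η : ℝ) (hη : 0 < η) :
    ∃ (s ε : ℝ) (k₀ : ℕ), 0 < s ∧ 0 < ε ∧ ∀ M : Set (Ed d), Convex ℝ M → Near s L M →
      (∃ P, IsPar P ∧ (0 : Ed d) ∈ P ∧ P ⊆ M ∧ ∀ x ∈ M, (1 + η)⁻¹ • x ∈ P) ∨
      ∀ k, k₀ ≤ k → ∀ N : ℕ, (2 ^ d - ε) * k ≤ N → KFold M k N := by
  classical
  obtain ⟨-, hpar⟩ := Pool.Agent.H2R2.Frac.primal d hd L hLc hL ⟨0, h0⟩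
  by_cases hp : IsPar L
  · set s : ℝ := min 1 (η / 3) with hs
    have hs0 : 0 < s := by rw [hs]; positivity
    have hs1 : s ≤ 1 := min_le_left _ _
    have hs2 : s ≤ η / 3 := min_le_right _ _
    have h1s : (0:ℝ) < 1 + s := by linarith
    refine ⟨s, 1, 0, hs0, one_pos, fun M hM hnear => Or.inl ?_⟩
    let u : ℝˣ := Units.mk0 (1 + s)⁻¹ (by positivity)
    let A : Ed d ≃L[ℝ] Ed d := ContinuousLinearEquiv.smulLeft u
    have hA : ∀ x, A x = (1 + s)⁻¹ • x := fun x => rfl
    refine ⟨(fun x => A x + 0) '' L, hp.image A 0, ⟨0, interior_subset h0, by simp⟩, ?_, ?_⟩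
    · rintro _ ⟨y, hy, rfl⟩
      simp only [add_zero, hA]
      exact hnear.1 y hy
    · intro x hx
      have h1 := hnear.2 x hx
      set c : ℝ := (1 + η)⁻¹ * (1 + s) ^ 2 with hc
      have hc0 : 0 ≤ c := by positivity
      have hc1 : c ≤ 1 := by
        rw [hc, inv_mul_le_iff₀ (by linarith), mul_one]
        nlinarith
      refine ⟨c • ((1 + s)⁻¹ • x), ?_, ?_⟩
      · have h2 := hL h1 (interior_subset h0) hc0 (sub_nonneg.2 hc1) (by ring)
        rwa [smul_zero, add_zero] at h2
      · simp only [add_zero, hA]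
        rw [smul_smul, smul_smul, hc]
        congr 1
        field_simp
  · have h1 : ∃ (T : Finset (Ed d)) (w : Ed d → ℝ), (∀ t ∈ T, 0 ≤ w t) ∧ FCov L T w ∧
        ∑ t ∈ T, w t < 2 ^ d := by
      by_contra hcon
      apply hp
      apply hpar.1
      intro T w hw hcov
      by_contra h2
      exact hcon ⟨T, w, hw, hcov, not_le.1 h2⟩
    obtain ⟨T, w, hw, hcov, hlt⟩ := h1
    obtain ⟨s, hs, hst⟩ := frac_stable L hL hLc h0 T w hw hcov
    set ε : ℝ := (2 ^ d - ∑ t ∈ T, w t) / 2 with hε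
    have hε0 : 0 < ε := by rw [hε]; linarith
    refine ⟨s, ε, ⌈(T.card : ℝ) / ε⌉₊, hs, hε0, fun M hM hnear => Or.inr fun k hk N hN => ?_⟩
    refine kfold_of_frac M T w hw (hst M hM hnear) k _ ?_
    have h2 : (T.card : ℝ) / ε ≤ k := (Nat.le_ceil _).trans (by exact_mod_cast hk)
    rw [div_le_iff₀ hε0] at h2
    have h3 : ∑ t ∈ T, w t = 2 ^ d - 2 * ε := by rw [hε]; ring
    rw [h3]
    nlinarith

/-- compactness: a property that holds near each convex body in normal position, with a constant,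
holds for all of them -/
theorem compactness (r R : ℝ) (hr : 0 < r) (Q : ℕ → Set (Ed d) → Prop)
    (hmono : ∀ m n L, m ≤ n → Q m L → Q n L)
    (hloc : ∀ L : Set (Ed d), Convex ℝ L → IsCompact L → (0 : Ed d) ∈ interior L →
      ∃ (s : ℝ) (n : ℕ), 0 < s ∧ ∀ M : Set (Ed d), Convex ℝ M → Near s L M → Q n M) :
    ∃ n : ℕ, ∀ L : Set (Ed d), Convex ℝ L → IsCompact L → Metric.closedBall 0 r ⊆ L →
      L ⊆ Metric.closedBall 0 R → Q n L := by
  classical
  let 𝒦 : Set (NonemptyCompacts (Ed d)) := {L | (L : Set (Ed d)) ⊆ Metric.closedBall 0 R} ∩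
    ({L | ∀ (x y : Ed d) (a b : ℝ), 0 ≤ a → 0 ≤ b → a + b = 1 →
      Metric.infDist (a • x + b • y) (L : Set (Ed d)) ≤
        a * Metric.infDist x (L : Set (Ed d)) + b * Metric.infDist y (L : Set (Ed d))} ∩
    {L | ∀ y ∈ Metric.closedBall (0 : Ed d) r, Metric.infDist y (L : Set (Ed d)) = 0})
  have hcont : ∀ x : Ed d, Continuous fun L : NonemptyCompacts (Ed d) =>
      Metric.infDist x (L : Set (Ed d)) := fun x => (Metric.lipschitz_infDist_set x).continuous
  have h𝒦 : IsCompact 𝒦 := by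
    refine (NonemptyCompacts.isCompact_subsets_of_isCompact
      (isCompact_closedBall 0 R)).inter_right (IsClosed.inter ?_ ?_)
    · simp only [Set.ofPred_forall]
      refine isClosed_iInter fun x => isClosed_iInter fun y => isClosed_iInter fun a =>
        isClosed_iInter fun b => isClosed_iInter fun _ => isClosed_iInter fun _ =>
        isClosed_iInter fun _ => ?_
      exact isClosed_le (hcont _) (((hcont x).const_mul a).add ((hcont y).const_mul b))
    · simp only [Set.ofPred_forall]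
      exact isClosed_iInter fun y => isClosed_iInter fun _ => isClosed_eq (hcont y) continuous_const
  have hmem0 : ∀ (L : NonemptyCompacts (Ed d)) (x : Ed d),
      Metric.infDist x (L : Set (Ed d)) = 0 ↔ x ∈ (L : Set (Ed d)) := fun L x =>
    (L.isCompact.isClosed.mem_iff_infDist_zero L.nonempty).symm
  have hconv : ∀ L ∈ 𝒦, Convex ℝ (L : Set (Ed d)) := by
    intro L hL x hx y hy a b ha hb hab
    have h1 := hL.2.1 x y a b ha hb hab
    rw [(hmem0 L x).2 hx, (hmem0 L y).2 hy] at h1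
    rw [← hmem0]
    exact le_antisymm (by linarith) Metric.infDist_nonneg
  have hrL : ∀ L ∈ 𝒦, Metric.closedBall 0 r ⊆ (L : Set (Ed d)) := by
    intro L hL y hy
    rw [← hmem0]
    exact hL.2.2 y hy
  have h0L : ∀ L ∈ 𝒦, (0 : Ed d) ∈ interior (L : Set (Ed d)) := by
    intro L hL
    refine mem_interior.2 ⟨Metric.ball 0 r, Metric.ball_subset_closedBall.trans (hrL L hL),
      Metric.isOpen_ball, Metric.mem_ball_self hr⟩
  have hloc' : ∀ L : NonemptyCompacts (Ed d), ∃ (s : ℝ) (n : ℕ), 0 < s ∧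
      (L ∈ 𝒦 → ∀ M : Set (Ed d), Convex ℝ M → Near s (L : Set (Ed d)) M → Q n M) := by
    intro L
    by_cases hL : L ∈ 𝒦
    · obtain ⟨s, n, hs, h⟩ := hloc (L : Set (Ed d)) (hconv L hL) L.isCompact (h0L L hL)
      exact ⟨s, n, hs, fun _ => h⟩
    · exact ⟨1, 0, one_pos, fun h => absurd h hL⟩
  choose s κ hs hκ using hloc'
  obtain ⟨F, hF𝒦, hF⟩ := h𝒦.elim_nhds_subcover (fun L => Metric.ball L (s L * r)) fun L _ =>
    Metric.ball_mem_nhds L (mul_pos (hs L) hr)
  refine ⟨F.sup κ, fun M hM hMc hMr hMR => ?_⟩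
  have hMne : M.Nonempty := ⟨0, hMr (by simp [hr.le])⟩
  let M' : NonemptyCompacts (Ed d) := ⟨⟨M, hMc⟩, hMne⟩
  have hM' : M' ∈ 𝒦 := by
    refine ⟨hMR, ?_, ?_⟩
    · intro x y a b ha hb hab
      exact infDist_convex M hM hMc hMne x y a b ha hb hab
    · intro y hy
      exact (hmem0 M' y).2 (hMr hy)
  obtain ⟨L, hLF, hL⟩ := Set.mem_iUnion₂.1 (hF hM')
  have hL𝒦 : L ∈ 𝒦 := hF𝒦 L hLF
  refine hmono _ _ _ (Finset.le_sup hLF) (hκ L hL𝒦 M hM ?_)
  have hdist : Metric.hausdorffDist M (L : Set (Ed d)) < s L * r := hL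
  have hfin : Metric.hausdorffEDist M (L : Set (Ed d)) ≠ ⊤ :=
    Metric.hausdorffEDist_ne_top_of_nonempty_of_bounded hMne L.nonempty hMc.isBounded
      L.isCompact.isBounded
  constructor
  · refine near_of_dist (hs L) (L : Set (Ed d)) M hM hMr fun y hy => ?_
    obtain ⟨y', hy', h⟩ := Metric.exists_dist_lt_of_hausdorffDist_lt' hy hdist hfin
    exact ⟨y', hy', by rw [dist_comm]; exact h.le⟩
  · refine near_of_dist (hs L) M (L : Set (Ed d)) (hconv L hL𝒦) (hrL L hL𝒦) fun y hy => ?_
    obtain ⟨y', hy', h⟩ := Metric.exists_dist_lt_of_hausdorffDist_lt hy hdist hfin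
    exact ⟨y', hy', h.le⟩

/-- **stability** -/
theorem stability (d : ℕ) (hd : 1 ≤ d) (η : ℝ) (hη : 0 < η) :
    ∃ (ε : ℝ) (k₀ : ℕ), 0 < ε ∧ ∀ K : Set (Ed d), Convex ℝ K → IsCompact K →
      (interior K).Nonempty →
      (∃ (P : Set (Ed d)) (c : Ed d), IsPar P ∧ c ∈ P ∧ P ⊆ K ∧
        ∀ x ∈ K, c + (1 + η)⁻¹ • (x - c) ∈ P) ∨
      ∀ k, k₀ ≤ k → ∀ N : ℕ, (2 ^ d - ε) * k ≤ N → KFold K k N := by
  classical
  have hd0 : (0:ℝ) < d := by exact_mod_cast hd
  obtain ⟨n, h⟩ := compactness (d := d) (1 / (2 * (d : ℝ) ^ 2)) d (by positivity)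
    (fun n M => (∃ P, IsPar P ∧ (0 : Ed d) ∈ P ∧ P ⊆ M ∧ ∀ x ∈ M, (1 + η)⁻¹ • x ∈ P) ∨
      ∀ k, n ≤ k → ∀ N : ℕ, (2 ^ d - 1 / ((n : ℝ) + 1)) * k ≤ N → KFold M k N)
    (by
      rintro m n L hmn (h | h)
      · exact Or.inl h
      · refine Or.inr fun k hk N hN => h k (hmn.trans hk) N ?_
        have h1 : 1 / ((n : ℝ) + 1) ≤ 1 / ((m : ℝ) + 1) := by
          apply one_div_le_one_div_of_le (by positivity)
          have : (m : ℝ) ≤ n := by exact_mod_cast hmn
          linarith
        have h2 : (0:ℝ) ≤ k := by positivity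
        nlinarith)
    (by
      intro L hL hLc h0
      obtain ⟨s, ε, k₀, hs, hε, h⟩ := local_stab hd L hL hLc h0 η hη
      obtain ⟨m, hm⟩ := exists_nat_one_div_lt hε
      refine ⟨s, max m k₀, hs, fun M hM hnear => ?_⟩
      rcases h M hM hnear with h | h
      · exact Or.inl h
      · refine Or.inr fun k hk N hN => h k ((le_max_right _ _).trans hk) N ?_
        have h1 : 1 / (((max m k₀ : ℕ) : ℝ) + 1) ≤ 1 / ((m : ℝ) + 1) := by
          apply one_div_le_one_div_of_le (by positivity)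
          have : (m : ℝ) ≤ ((max m k₀ : ℕ) : ℝ) := by exact_mod_cast le_max_left m k₀
          linarith
        have h2 : (0:ℝ) ≤ k := by positivity
        nlinarith)
  refine ⟨1 / ((n : ℝ) + 1), n, by positivity, fun K hK hKc hi => ?_⟩
  obtain ⟨A, p, h1, h2⟩ := normal_position hd K hK hKc hi
  have hconv : Convex ℝ ((fun x => A (x - p)) '' K) := by
    rintro _ ⟨x, hx, rfl⟩ _ ⟨y, hy, rfl⟩ s t hs ht hst
    refine ⟨s • x + t • y, hK hx hy hs ht hst, ?_⟩
    simp only
    rw [← map_smul, ← map_smul, ← map_add]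
    congr 1
    rw [smul_sub, smul_sub]
    have : p = s • p + t • p := by rw [← add_smul, hst, one_smul]
    conv_lhs => rw [this]
    abel
  rcases h _ hconv (hKc.image (by fun_prop)) h1 h2 with ⟨P, hP, h0P, hPM, hMP⟩ | h
  · left
    refine ⟨(fun x => A.symm x + p) '' P, p, hP.image A.symm p, ⟨0, h0P, by simp⟩, ?_, ?_⟩
    · rintro _ ⟨y, hy, rfl⟩
      obtain ⟨x, hx, hxy⟩ := hPM hy
      have : A.symm y + p = x := by
        rw [← hxy]
        simp
      show A.symm y + p ∈ K
      rw [this]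
      exact hx
    · intro x hx
      refine ⟨_, hMP _ ⟨x, hx, rfl⟩, ?_⟩
      simp only [map_smul, ContinuousLinearEquiv.symm_apply_apply]
      rw [add_comm]
  · right
    intro k hk N hN
    exact kfold_affine K A p k _ (h k hk N hN)

/-- `N` translates of the interior of `K` cover each point of `K` at least `k` times -/
def MCover (K : Set (Ed d)) (k N : ℕ) : Prop :=
  ∃ c : Fin N → Ed d, ∀ x ∈ K, k ≤ Nat.card {i : Fin N // x ∈ (fun y => c i + y) '' interior K}

theorem mem_tr (K : Set (Ed d)) (c x : Ed d) :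
    x ∈ (fun y => c + y) '' interior K ↔ x - c ∈ interior K := by
  constructor
  · rintro ⟨y, hy, rfl⟩
    simpa using hy
  · intro h
    exact ⟨x - c, h, by simp⟩

theorem mcover_of_kfold (K : Set (Ed d)) (k N : ℕ) (h : KFold K k N) : MCover K k N := by
  classical
  obtain ⟨T, m, hm, hcov⟩ := h
  set S : Finset (Σ _ : Ed d, ℕ) := T.sigma fun t => Finset.range (m t) with hS
  have hScard : S.card ≤ N := by
    rw [hS, Finset.card_sigma]
    simpa using hm
  have hemb : Nonempty (S ↪ Fin N) := by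
    rw [Function.Embedding.nonempty_iff_card_le]
    simpa using hScard
  obtain ⟨g⟩ := hemb
  let c : Fin N → Ed d := fun i => if h : ∃ q : S, g q = i then h.choose.1.1 else 0
  have hc : ∀ q : S, c (g q) = q.1.1 := by
    intro q
    have h : ∃ q' : S, g q' = g q := ⟨q, rfl⟩
    simp only [c]
    rw [dif_pos h]
    have := g.injective h.choose_spec
    rw [this]
  refine ⟨c, fun x hx => (hcov x hx).trans ?_⟩
  set B : Finset (Σ _ : Ed d, ℕ) := (T.filter fun t => x - t ∈ interior K).sigma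
    fun t => Finset.range (m t) with hB
  have hBS : B ⊆ S := Finset.sigma_mono (Finset.filter_subset _ _) fun _ => le_refl _
  have h1 : ∑ t ∈ T, (interior K).indicator (fun _ => m t) (x - t) = B.card := by
    rw [hB, Finset.card_sigma, Finset.sum_filter]
    refine Finset.sum_congr rfl fun t _ => ?_
    by_cases h : x - t ∈ interior K
    · rw [Set.indicator_of_mem h, if_pos h]
      simp
    · rw [Set.indicator_of_notMem h, if_neg h]
  rw [h1]
  have h2 : ∀ q ∈ B, x - q.1 ∈ interior K := by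
    intro q hq
    rw [hB, Finset.mem_sigma] at hq
    exact (Finset.mem_filter.1 hq.1).2
  let f : B → {i : Fin N // x ∈ (fun y => c i + y) '' interior K} := fun q =>
    ⟨g ⟨q.1, hBS q.2⟩, by rw [mem_tr, hc]; exact h2 q.1 q.2⟩
  have hf : Function.Injective f := by
    intro q q' hqq
    have h3 : g ⟨q.1, hBS q.2⟩ = g ⟨q'.1, hBS q'.2⟩ := congrArg Subtype.val hqq
    have h4 := g.injective h3
    exact Subtype.ext (congrArg (fun z : S => z.1) h4)
  have h3 := Nat.card_le_card_of_injective f hf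
  simpa using h3

/-- **lower bound** for parallelotopes -/
theorem par_lower (hd : 1 ≤ d) (K : Set (Ed d)) (hK : IsPar K) (k N : ℕ) (h : MCover K k N) :
    k * 2 ^ d ≤ N := by
  classical
  rcases Nat.eq_zero_or_pos k with rfl | hk
  · simp
  obtain ⟨p, v, hv, hKe⟩ := hK
  obtain ⟨c, hc⟩ := h
  have hk0 : (0:ℝ) < k := by exact_mod_cast hk
  set T : Finset (Ed d) := Finset.univ.image c with hT
  have h1 := Pool.Agent.H2R2.Frac.box_lower d hd p v hv K hKe T
    (fun t => ((Finset.univ.filter fun i => c i = t).card : ℝ) / k) (fun t _ => by positivity) ?_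
  · rw [← Finset.sum_div, le_div_iff₀ hk0] at h1
    have h2 : ∑ t ∈ T, (((Finset.univ.filter fun i => c i = t).card : ℕ) : ℝ) = N := by
      have h3 := Finset.card_eq_sum_card_fiberwise (s := (Finset.univ : Finset (Fin N))) (t := T)
        (f := c) (fun i _ => Finset.mem_coe.2 (Finset.mem_image_of_mem _ (Finset.mem_univ i)))
      rw [Finset.card_univ, Fintype.card_fin] at h3
      exact_mod_cast h3.symm
    rw [h2] at h1
    have h3 : ((2 ^ d * k : ℕ) : ℝ) ≤ N := by push_cast; exact h1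
    have h4 : 2 ^ d * k ≤ N := by exact_mod_cast h3
    linarith [h4, mul_comm k (2 ^ d)]
  · intro x hx
    have h2 := hc x hx
    have h3 : ∑ t ∈ T, (interior K).indicator
        (fun _ => ((Finset.univ.filter fun i => c i = t).card : ℝ) / k) (x - t) =
        ((Finset.univ.filter fun i => x - c i ∈ interior K).card : ℝ) / k := by
      have h4 := Finset.card_eq_sum_card_fiberwise
        (s := (Finset.univ.filter fun i => x - c i ∈ interior K)) (t := T) (f := c)
        (fun i _ => Finset.mem_coe.2 (Finset.mem_image_of_mem _ (Finset.mem_univ i)))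
      rw [h4]
      push_cast
      rw [Finset.sum_div]
      refine Finset.sum_congr rfl fun t _ => ?_
      by_cases h : x - t ∈ interior K
      · rw [Set.indicator_of_mem h]
        congr 2
        congr 1
        ext i
        simp only [Finset.mem_filter, Finset.mem_univ, true_and]
        constructor
        · rintro rfl; exact ⟨h, rfl⟩
        · exact fun h => h.2
      · rw [Set.indicator_of_notMem h]
        have : ((Finset.univ.filter fun i => x - c i ∈ interior K).filter fun i => c i = t) = ∅ := by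
          ext i
          simp only [Finset.mem_filter, Finset.mem_univ, true_and, Finset.notMem_empty, iff_false]
          rintro ⟨h5, rfl⟩
          exact h h5
        rw [this]
        simp
    rw [h3, le_div_iff₀ hk0, one_mul]
    have h5 : Nat.card {i : Fin N // x ∈ (fun y => c i + y) '' interior K} =
        (Finset.univ.filter fun i => x - c i ∈ interior K).card := by
      rw [Nat.card_eq_fintype_card, Fintype.card_subtype]
      congr 1
      ext i
      simp only [Finset.mem_filter, Finset.mem_univ, true_and, mem_tr]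
    rw [h5] at h2
    exact_mod_cast h2

end Q172.Hadw
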